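import Pool.Agent.H609.JT.Win
import Pool.Agent.H609.GF.Nor

/-!
# Tuples `y + m α` whose shifts are spread in the dual sense are jointly nearly normal, for most `m`
-/

set_option autoImplicit false

namespace Pool.Agent.H609.JT

open Finset Real
open Pool.Agent.Q263.JM (avg)
open Pool.Agent.H609.GF (word word_add)

variable {d : ℕ}

/-- every digit matrix with `d` rows of at most `w` digits (given by the integers `j l < b ^ k` which are
written by the rows) has the right frequency in every window of the first `D` places of the tuple `z`, up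
to an error `ε N + E`, where `N` is the length of the window -/
def JN (b w D : ℕ) (ε E : ℝ) (z : Fin d → ℝ) : Prop :=
  ∀ (k s N : ℕ) (j : Fin d → ℕ), 1 ≤ k → k ≤ w → (∀ l, j l < b ^ k) → s + N ≤ D →
    |((({i ∈ range N | ∀ l, word b k (s + i) (z l) = j l} : Finset ℕ).card : ℕ) : ℝ) -
      N / ((b : ℝ) ^ k) ^ d| ≤ ε * N + E

/-- the bad integers for one matrix and one place -/
noncomputable def bad (b L M : ℕ) (α y : Fin d → ℝ) (η : ℝ) (k : ℕ) (j : Fin d → ℕ) (s : ℕ) :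
    Finset ℕ :=
  (range M).filter (fun m : ℕ => η * L < |((((range L).filter (fun i => ∀ l,
      ⌊((b ^ k : ℕ) : ℝ) * Int.fract (((b ^ k : ℕ) : ℝ) ^ i *
        ((b : ℝ) ^ s * y l + m * ((b : ℝ) ^ s * α l)))⌋₊ = j l)).card : ℕ) : ℝ) -
        L / ((b ^ k : ℕ) : ℝ) ^ d|)

lemma bad_card (b w L M D : ℕ) (hb : 2 ≤ b) (hL : 2 ≤ L) (α y : Fin d → ℝ) (ρ η : ℝ) (hρ : 0 < ρ)
    (hη : 0 < η) (hη1 : η ≤ 1)
    (h : ∀ s ≤ D, ∀ u : Fin d → ℤ, u ≠ 0 → (∀ j, |u j| < (b : ℤ) ^ (w * L)) → ∀ p : ℤ,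
      ρ ≤ |∑ j, (u j : ℝ) * ((b : ℝ) ^ s * α j) - p|)
    (hM : 2 ^ (d + 1) / ρ * ((b : ℝ) ^ (w * L)) ^ d ≤ M) (k : ℕ) (j : Fin d → ℕ) (s : ℕ)
    (hk : 1 ≤ k) (hkw : k ≤ w) (hj : ∀ l, j l < b ^ k) (hs : s ≤ D) :
    ((bad b L M α y η k j s).card : ℝ) ≤
      2 * (16 ^ d + 1) * Real.exp (-(η ^ 2 / 4) * L) * M := by
  have hbR : (1 : ℝ) ≤ b := by exact_mod_cast (by omega : 1 ≤ b)
  have hb1 : 1 ≤ b := by omega
  have hkL : k * L ≤ w * L := Nat.mul_le_mul_right _ hkw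
  have h4 : 4 ≤ (b ^ k) ^ L := by
    rw [← pow_mul]
    calc 4 = 2 ^ 2 := by norm_num
      _ ≤ 2 ^ (k * L) := Nat.pow_le_pow_right (by norm_num) (by nlinarith)
      _ ≤ b ^ (k * L) := Nat.pow_le_pow_left hb _
  have hcell : ∀ W : Fin d → ℤ, (((range M).filter (fun m : ℕ => ∀ l, ⌊((b ^ k : ℕ) : ℝ) ^ L *
      Int.fract ((b : ℝ) ^ s * y l + m * ((b : ℝ) ^ s * α l))⌋ = W l)).card : ℝ) ≤
      16 ^ d * M / (((b ^ k : ℕ) : ℝ) ^ L) ^ d + 2 ^ (d + 1) / ρ := by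
    intro W
    have h1 := cell ((b ^ k) ^ L) M h4 (fun l => (b : ℝ) ^ s * y l) (fun l => (b : ℝ) ^ s * α l) ρ hρ
      (fun u hu hu' p => h s hs u hu (fun l => lt_of_lt_of_le (hu' l) (by
        have h2 : (b ^ k) ^ L ≤ b ^ (w * L) := by
          rw [← pow_mul]
          exact Nat.pow_le_pow_right hb1 hkL
        exact_mod_cast h2)) p) W
    rw [Nat.cast_pow] at h1
    exact h1
  have hD0 : (0 : ℝ) < ((b ^ k : ℕ) : ℝ) := by exact_mod_cast Nat.pow_pos (by omega)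
  have h5 := window (b ^ k) L M (Nat.one_le_pow _ _ (by omega))
    (fun m l => (b : ℝ) ^ s * y l + m * ((b : ℝ) ^ s * α l)) _ (by positivity) hcell j hj η hη hη1
  refine h5.trans ?_
  have e0 : (((b ^ k : ℕ) : ℝ) ^ d) ^ L = (((b ^ k : ℕ) : ℝ) ^ L) ^ d := by
    rw [← pow_mul, ← pow_mul, mul_comm]
  have h6 : (((b ^ k : ℕ) : ℝ) ^ d) ^ L *
      (16 ^ d * M / (((b ^ k : ℕ) : ℝ) ^ L) ^ d + 2 ^ (d + 1) / ρ) ≤ (16 ^ d + 1) * M := by
    rw [e0]
    have e1 : (((b ^ k : ℕ) : ℝ) ^ L) ^ d *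
        (16 ^ d * M / (((b ^ k : ℕ) : ℝ) ^ L) ^ d + 2 ^ (d + 1) / ρ) =
        16 ^ d * M + 2 ^ (d + 1) / ρ * (((b ^ k : ℕ) : ℝ) ^ L) ^ d := by
      field_simp
    rw [e1]
    have h7 : (((b ^ k : ℕ) : ℝ) ^ L) ^ d ≤ ((b : ℝ) ^ (w * L)) ^ d := by
      apply pow_le_pow_left₀ (by positivity)
      push_cast
      rw [← pow_mul]
      exact pow_le_pow_right₀ hbR hkL
    have h8 : 2 ^ (d + 1) / ρ * (((b ^ k : ℕ) : ℝ) ^ L) ^ d ≤
        2 ^ (d + 1) / ρ * ((b : ℝ) ^ (w * L)) ^ d :=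
      mul_le_mul_of_nonneg_left h7 (by positivity)
    linarith
  calc 2 * Real.exp (-(η ^ 2 / 4) * L) * (((b ^ k : ℕ) : ℝ) ^ d) ^ L *
        (16 ^ d * M / (((b ^ k : ℕ) : ℝ) ^ L) ^ d + 2 ^ (d + 1) / ρ)
      = 2 * Real.exp (-(η ^ 2 / 4) * L) * ((((b ^ k : ℕ) : ℝ) ^ d) ^ L *
        (16 ^ d * M / (((b ^ k : ℕ) : ℝ) ^ L) ^ d + 2 ^ (d + 1) / ρ)) := by ring
    _ ≤ 2 * Real.exp (-(η ^ 2 / 4) * L) * ((16 ^ d + 1) * M) :=
        mul_le_mul_of_nonneg_left h6 (by positivity)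
    _ = _ := by ring

lemma normal_of_not_bad (b w L M D : ℕ) (hL : 1 ≤ L) (α y : Fin d → ℝ) (η : ℝ) (m : ℕ) (hm : m < M)
    (h : ∀ (k s : ℕ) (j : Fin d → ℕ), 1 ≤ k → k ≤ w → (∀ l, j l < b ^ k) → s ≤ D →
      m ∉ bad b L M α y η k j s) :
    JN b w D η (w * L) (fun l => y l + m * α l) := by
  classical
  intro k s N j hk hkw hj hsN
  set f : ℕ → ℝ := fun p => if ∀ l, word b k p (y l + m * α l) = j l then 1 else 0 with hf
  have h0 : ∀ p, 0 ≤ f p := by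
    intro p
    simp only [hf]
    split_ifs <;> norm_num
  have h1 : ∀ p, f p ≤ 1 := by
    intro p
    simp only [hf]
    split_ifs <;> norm_num
  have h2 := avg f h0 h1 L k s N hL (1 / ((b : ℝ) ^ k) ^ d) η (by
    intro u hu
    have h3 := h k (s + u) j hk hkw hj (by omega)
    unfold bad at h3
    rw [mem_filter, not_and, not_lt] at h3
    have h4 := h3 (mem_range.2 hm)
    have e1 : ∑ i ∈ range L, f (s + u + k * i) = ((((range L).filter (fun i => ∀ l,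
      ⌊((b ^ k : ℕ) : ℝ) * Int.fract (((b ^ k : ℕ) : ℝ) ^ i *
        ((b : ℝ) ^ (s + u) * y l + m * ((b : ℝ) ^ (s + u) * α l)))⌋₊ = j l)).card : ℕ) : ℝ) := by
      rw [Finset.card_filter]
      push_cast
      refine Finset.sum_congr rfl fun i _ => ?_
      simp only [hf, word_add]
      push_cast
      have e2 : ∀ l, (b : ℝ) ^ (s + u) * (y l + m * α l) =
          (b : ℝ) ^ (s + u) * y l + m * ((b : ℝ) ^ (s + u) * α l) := fun l => by ring
      simp only [e2]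
    rw [e1, mul_one_div]
    push_cast at h4 ⊢
    exact h4)
  have e1 : ∑ u ∈ range N, f (s + u) =
      ((({i ∈ range N | ∀ l, word b k (s + i) (y l + m * α l) = j l} : Finset ℕ).card : ℕ) : ℝ) := by
    rw [Finset.card_filter]
    push_cast
    rfl
  rw [e1, mul_one_div] at h2
  refine h2.trans ?_
  have h4 : (k : ℝ) ≤ w := by exact_mod_cast hkw
  have h5 : (0 : ℝ) ≤ L := Nat.cast_nonneg L
  nlinarith

open Classical in
/-- **Most of the tuples are jointly nearly normal.** -/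
theorem most (b w L M D : ℕ) (hb : 2 ≤ b) (hL : 2 ≤ L) (α y : Fin d → ℝ) (ρ η : ℝ) (hρ : 0 < ρ)
    (hη : 0 < η) (hη1 : η ≤ 1)
    (h : ∀ s ≤ D, ∀ u : Fin d → ℤ, u ≠ 0 → (∀ j, |u j| < (b : ℤ) ^ (w * L)) → ∀ p : ℤ,
      ρ ≤ |∑ j, (u j : ℝ) * ((b : ℝ) ^ s * α j) - p|)
    (hM : 2 ^ (d + 1) / ρ * ((b : ℝ) ^ (w * L)) ^ d ≤ M) :
    ((((range M).filter (fun m : ℕ =>
      ¬ JN b w D η (w * L) (fun l => y l + m * α l))).card : ℕ) : ℝ) ≤
      (w * (b ^ w) ^ d * (D + 1) : ℕ) *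
        (2 * (16 ^ d + 1) * Real.exp (-(η ^ 2 / 4) * L) * M) := by
  set I : Finset (ℕ × (Fin d → ℕ) × ℕ) := (Icc 1 w) ×ˢ
    (Fintype.piFinset (fun _ : Fin d => range (b ^ w))) ×ˢ (range (D + 1)) with hI
  have hsub : (range M).filter (fun m : ℕ =>
      ¬ JN b w D η (w * L) (fun l => y l + m * α l)) ⊆
      (I.filter (fun t => ∀ l, t.2.1 l < b ^ t.1)).biUnion
        (fun t => bad b L M α y η t.1 t.2.1 t.2.2) := by
    intro m hm
    rw [mem_filter, mem_range] at hm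
    rw [mem_biUnion]
    by_contra hcon
    push Not at hcon
    refine hm.2 (normal_of_not_bad b w L M D (by omega) α y η m hm.1 ?_)
    intro k s j hk hkw hj hs
    refine hcon (k, j, s) ?_
    rw [mem_filter, hI, mem_product, mem_product, mem_Icc, Fintype.mem_piFinset, mem_range]
    exact ⟨⟨⟨hk, hkw⟩, fun l => mem_range.2 (lt_of_lt_of_le (hj l)
      (Nat.pow_le_pow_right (by omega) hkw)), Nat.lt_succ_of_le hs⟩, hj⟩
  have h1 := card_le_card hsub
  have h2 := card_biUnion_le (s := I.filter (fun t => ∀ l, t.2.1 l < b ^ t.1))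
    (t := fun t => bad b L M α y η t.1 t.2.1 t.2.2)
  have h3 : ((((range M).filter (fun m : ℕ =>
      ¬ JN b w D η (w * L) (fun l => y l + m * α l))).card : ℕ) : ℝ) ≤
      ∑ t ∈ I.filter (fun t => ∀ l, t.2.1 l < b ^ t.1),
        ((bad b L M α y η t.1 t.2.1 t.2.2).card : ℝ) := by
    exact_mod_cast h1.trans h2
  refine h3.trans ?_
  have hc0 : 0 ≤ 2 * (16 ^ d + 1) * Real.exp (-(η ^ 2 / 4) * L) * M := by positivity
  calc ∑ t ∈ I.filter (fun t => ∀ l, t.2.1 l < b ^ t.1),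
        ((bad b L M α y η t.1 t.2.1 t.2.2).card : ℝ)
      ≤ ∑ _t ∈ I.filter (fun t => ∀ l, t.2.1 l < b ^ t.1),
        2 * (16 ^ d + 1) * Real.exp (-(η ^ 2 / 4) * L) * M := by
        refine sum_le_sum fun t ht => ?_
        rw [mem_filter, hI, mem_product, mem_product, mem_Icc, mem_range] at ht
        exact bad_card b w L M D hb hL α y ρ η hρ hη hη1 h hM _ _ _ ht.1.1.1 ht.1.1.2 ht.2
          (by omega)
    _ = ((I.filter (fun t => ∀ l, t.2.1 l < b ^ t.1)).card : ℝ) *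
        (2 * (16 ^ d + 1) * Real.exp (-(η ^ 2 / 4) * L) * M) := by
        rw [sum_const, nsmul_eq_mul]
    _ ≤ _ := by
        apply mul_le_mul_of_nonneg_right _ hc0
        have h4 : (I.filter (fun t => ∀ l, t.2.1 l < b ^ t.1)).card ≤ w * (b ^ w) ^ d * (D + 1) := by
          refine (card_filter_le _ _).trans ?_
          rw [hI, card_product, card_product, Nat.card_Icc, card_range,
            Fintype.card_piFinset_const, card_range]
          simp only [Nat.add_sub_cancel]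
          rw [mul_assoc]
        exact_mod_cast h4

end Pool.Agent.H609.JT
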