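import Pool.Agent.H609.JT.Rec
import Pool.Agent.H609.JT.Nor
import Pool.Agent.H609.GF.Main
import Pool.Agent.H609.GF.Ev

/-!
# The digits of the multiples of a tuple of values of algebraic power series at `b ^ (-n)`
-/

set_option autoImplicit false

namespace Pool.Agent.H609.JT

open Finset Real Filter Topology PowerSeries
open Pool.Agent.H609.GF (ev_exp Sm ev Gr)

variable {d : ℕ}

lemma JN.mono {b w w' D : ℕ} {ε ε' E E' : ℝ} {z : Fin d → ℝ} (h : JN b w' D ε' E' z)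
    (hw : w ≤ w') (hε : ε' ≤ ε) (hE : E' ≤ E) : JN b w D ε E z := by
  intro k s N j hk hkw hj hsN
  refine (h k s N j hk (hkw.trans hw) hj hsN).trans ?_
  have : (0 : ℝ) ≤ N := Nat.cast_nonneg N
  nlinarith

lemma sm_of_gr {f : ℚ⟦X⟧} {C : ℕ} (h : Gr C f) (b : ℕ) (hb : 2 ≤ b) (n : ℕ) (hn : C + 1 ≤ n) :
    Sm (((b : ℝ) ^ n)⁻¹) f := by
  have hsize : ∀ k, |((coeff k f : ℚ) : ℝ)| ≤ (C : ℝ) ^ (k + 1) := by
    intro k
    have := (h k).1
    exact_mod_cast this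
  exact (Pool.Agent.H609.GF.summable_val (a := fun k => coeff k f) hsize b hb n hn).norm

lemma val_comb (f : Fin d → ℚ⟦X⟧) (u : Fin d → ℤ) (b n : ℕ)
    (h : ∀ j, Sm (((b : ℝ) ^ n)⁻¹) (f j)) :
    Pool.Agent.H609.GF.val (fun k => ∑ j, (u j : ℚ) * coeff k (f j)) b n =
      ∑ j, (u j : ℝ) * ev (((b : ℝ) ^ n)⁻¹) (f j) := by
  unfold Pool.Agent.H609.GF.val ev
  have h1 : ∀ k : ℕ, (((∑ j, (u j : ℚ) * coeff k (f j) : ℚ)) : ℝ) * (((b : ℝ) ^ n)⁻¹) ^ k =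
      ∑ j, (u j : ℝ) * (((coeff k (f j) : ℚ) : ℝ) * (((b : ℝ) ^ n)⁻¹) ^ k) := by
    intro k
    push_cast
    rw [sum_mul]
    exact sum_congr rfl fun j _ => by ring
  simp only [h1]
  rw [Summable.tsum_finsetSum]
  · refine sum_congr rfl fun j _ => ?_
    rw [tsum_mul_left]
  · intro j _
    exact (h j).of_norm.mul_left _

/-- the combinations of the shifted values are far from the integers -/
lemma spread {f : Fin d → ℚ⟦X⟧} {C g : ℕ}
    (hsm : ∀ j, Gr C (f j))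
    (h : ∀ (U : ℝ) (u : Fin d → ℤ), 0 ≤ U → u ≠ 0 → (∀ j, |(u j : ℝ)| ≤ U) →
      GV (fun k => ∑ j, (u j : ℚ) * coeff k (f j)) C g (d * U))
    (b : ℕ) (hb : 2 ≤ b) (n D ℓ : ℕ)
    (hn : 8 * (C * (2 * g + 5) + 2) ≤ n) (hD : (D : ℝ) ≤ 1 / (16 * (C + 1)) * (n : ℝ) ^ 2)
    (hl : 4 * (ℓ + d) ≤ n) : ∀ s ≤ D, ∀ u : Fin d → ℤ, u ≠ 0 → (∀ j, |u j| < (b : ℤ) ^ ℓ) → ∀ p : ℤ,
      ((b : ℝ) ^ ((g + 2) * n))⁻¹ ≤
        |∑ j, (u j : ℝ) * ((b : ℝ) ^ s * ev (((b : ℝ) ^ n)⁻¹) (f j)) - p| := by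
  intro s hs u hu hul p
  have hn1 : 1 ≤ n := by omega
  have hn0 : (0 : ℝ) < n := by exact_mod_cast hn1
  have hdm := Nat.div_add_mod s n
  have hml := Nat.mod_lt s hn1
  have hnC : C + 1 ≤ n := by nlinarith
  have hul' : ∀ j, |(u j : ℝ)| ≤ (b : ℝ) ^ ℓ := by
    intro j
    have := (hul j).le
    exact_mod_cast this
  have hGV := h ((b : ℝ) ^ ℓ) u (by positivity) hu hul'
  have hV : (d : ℝ) * (b : ℝ) ^ ℓ ≤ (b : ℝ) ^ (ℓ + d) := by
    rw [pow_add, mul_comm]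
    apply mul_le_mul_of_nonneg_left _ (by positivity)
    exact Pool.Agent.H609.GF.pow_ge b d hb
  have hkey := key hGV b hb n (s / n + 1) (ℓ + d) s ?_ ?_ ?_ (by positivity) hV hl p
  · rw [val_comb f u b n (fun j => sm_of_gr (hsm j) b hb n hnC)] at hkey
    refine hkey.trans (le_of_eq ?_)
    congr 2
    rw [mul_sum]
    exact sum_congr rfl fun j _ => by ring
  · -- `8 C (s / n) ≤ n / 2`
    have h1 : ((s / n : ℕ) : ℝ) ≤ (n : ℝ) / (16 * (C + 1)) := by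
      have h2 : ((s / n : ℕ) : ℝ) ≤ (s : ℝ) / n := Nat.cast_div_le
      refine h2.trans ?_
      rw [div_le_div_iff₀ hn0 (by positivity)]
      have h3 : (s : ℝ) ≤ 1 / (16 * (C + 1)) * (n : ℝ) ^ 2 :=
        le_trans (by exact_mod_cast hs) hD
      have h4 : (s : ℝ) * (16 * (C + 1)) ≤
          1 / (16 * (C + 1)) * (n : ℝ) ^ 2 * (16 * (C + 1)) :=
        mul_le_mul_of_nonneg_right h3 (by positivity)
      have h5 : 1 / (16 * ((C : ℝ) + 1)) * (n : ℝ) ^ 2 * (16 * (C + 1)) = n * n := by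
        field_simp
      linarith
    have h6 : 16 * C * (s / n) ≤ n := by
      have h7 : (16 : ℝ) * C * ((s / n : ℕ) : ℝ) ≤ n := by
        calc (16 : ℝ) * C * ((s / n : ℕ) : ℝ) ≤ 16 * C * ((n : ℝ) / (16 * (C + 1))) :=
              mul_le_mul_of_nonneg_left h1 (by positivity)
          _ = n * (C / (C + 1)) := by field_simp
          _ ≤ n * 1 := by
              apply mul_le_mul_of_nonneg_left _ hn0.le
              rw [div_le_one (by positivity)]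
              linarith
          _ = n := mul_one _
      exact_mod_cast h7
    have e1 : 4 * (C * (2 * (s / n + 1 + g) + 3) + 2) =
        8 * (C * (s / n)) + 4 * (C * (2 * g + 5) + 2) := by ring
    have e2 : 16 * C * (s / n) = 2 * (8 * (C * (s / n))) := by ring
    rw [e1]
    omega
  · rw [Nat.mul_add, Nat.mul_one]
    omega
  · rw [Nat.mul_add, Nat.mul_one]
    omega

open Classical in
/-- **Most multiples of the tuple.** -/
theorem main_tuple (f : Fin d → ℚ⟦X⟧) (hf : ∀ j, IsAlgebraic (Polynomial ℚ) (f j))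
    (hnp : ∀ u : Fin d → ℚ, (∃ P : Polynomial ℚ, (P : ℚ⟦X⟧) = ∑ j, C (u j) * f j) → u = 0) :
    ∃ A : ℕ, ∃ c : ℝ, 0 < c ∧ ∀ b : ℕ, 2 ≤ b → ∀ w : ℕ, ∀ ε : ℝ, 0 < ε →
      ∃ κ : ℝ, 0 < κ ∧ ∃ n₀ : ℕ, ∀ n : ℕ, n₀ ≤ n → (∀ j, Sm (((b : ℝ) ^ n)⁻¹) (f j)) ∧
        ∀ D M : ℕ, (D : ℝ) ≤ c * (n : ℝ) ^ 2 → b ^ (A * n) ≤ M → ∀ y : Fin d → ℝ,
        ((((range M).filter (fun m : ℕ =>
          ¬ JN b w D ε (ε * n) (fun l => y l + m * ev (((b : ℝ) ^ n)⁻¹) (f l)))).card : ℕ) : ℝ) ≤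
          M * exp (-(κ * n)) := by
  obtain ⟨C, g, hC, hsm, h⟩ := gv_tuple f hf hnp
  refine ⟨g + 3 + d, 1 / (16 * (C + 1)), by positivity, fun b hb w ε hε => ?_⟩
  set w' : ℕ := w + 1 with hw'
  set η : ℝ := min ε 1 with hη
  set δ : ℝ := min ε (1 / 8) / w' with hδ
  have hw0 : (0 : ℝ) < w' := by rw [hw']; positivity
  have hη0 : 0 < η := lt_min hε one_pos
  have hη1 : η ≤ 1 := min_le_right _ _
  have hm0 : 0 < min ε (1 / 8) := lt_min hε (by norm_num)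
  have hδ0 : 0 < δ := by positivity
  have hδw : w' * δ = min ε (1 / 8) := by rw [hδ]; field_simp
  set κ : ℝ := η ^ 2 / 8 * δ with hκ
  have hκ0 : 0 < κ := by positivity
  obtain ⟨n1, hn1⟩ := Filter.eventually_atTop.1
    (ev_exp ((w' * (b ^ w') ^ d : ℕ) * (2 * (16 ^ d + 1) * exp (η ^ 2 / 4))) κ hκ0)
  obtain ⟨n2, hn2⟩ := exists_nat_gt (3 / δ)
  refine ⟨κ, hκ0, max n1 (max n2 (max (8 * (C * (2 * g + 5) + 2)) (8 * d + 8))), fun n hn => ?_⟩
  have hnn1 : n1 ≤ n := le_of_max_le_left hn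
  have hnn2 : n2 ≤ n := le_of_max_le_left (le_of_max_le_right hn)
  have hnn3 : 8 * (C * (2 * g + 5) + 2) ≤ n :=
    le_of_max_le_left (le_of_max_le_right (le_of_max_le_right hn))
  have hnn4 : 8 * d + 8 ≤ n :=
    le_of_max_le_right (le_of_max_le_right (le_of_max_le_right hn))
  have hn0 : (0 : ℝ) < n := by exact_mod_cast (by omega : 0 < n)
  have hnC : C + 1 ≤ n := by nlinarith
  refine ⟨fun j => sm_of_gr (hsm j) b hb n hnC, fun D M hD hM y => ?_⟩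
  have hn3 : 3 ≤ δ * n := by
    have h1 : 3 / δ < n := lt_of_lt_of_le hn2 (by exact_mod_cast hnn2)
    rw [div_lt_iff₀ hδ0] at h1
    linarith
  set L : ℕ := ⌊δ * n⌋₊ with hL
  have hL1 : (L : ℝ) ≤ δ * n := Nat.floor_le (by positivity)
  have hL2 : δ * n < L + 1 := Nat.lt_floor_add_one _
  have hLL : 2 ≤ L := by
    have : (2 : ℝ) < L := by linarith
    exact_mod_cast this.le
  have hwL : (w' : ℝ) * L ≤ min ε (1 / 8) * n := by
    rw [← hδw, mul_assoc]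
    exact mul_le_mul_of_nonneg_left hL1 hw0.le
  have hwL4 : 8 * (w' * L) ≤ n := by
    have h1 : (8 : ℝ) * (w' * L) ≤ n := by
      have h2 : min ε (1 / 8) * n ≤ 1 / 8 * n :=
        mul_le_mul_of_nonneg_right (min_le_right _ _) hn0.le
      linarith
    exact_mod_cast h1
  have hb0 : (0 : ℝ) < b := by exact_mod_cast (by omega : 0 < b)
  have hb1 : (1 : ℝ) ≤ b := by exact_mod_cast (by omega : 1 ≤ b)
  have hbR : (2 : ℝ) ≤ b := by exact_mod_cast hb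
  have hspread := spread hsm h b hb n D (w' * L) hnn3 hD (by omega)
  have hM' : 2 ^ (d + 1) / ((b : ℝ) ^ ((g + 2) * n))⁻¹ * ((b : ℝ) ^ (w' * L)) ^ d ≤ M := by
    have h1 : ((b ^ ((g + 3 + d) * n) : ℕ) : ℝ) ≤ M := by exact_mod_cast hM
    refine le_trans ?_ h1
    rw [div_inv_eq_mul]
    push_cast
    have h2 : (2 : ℝ) ^ (d + 1) ≤ (b : ℝ) ^ (d + 1) := pow_le_pow_left₀ (by norm_num) hbR _
    calc 2 ^ (d + 1) * (b : ℝ) ^ ((g + 2) * n) * ((b : ℝ) ^ (w' * L)) ^ d ≤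
        (b : ℝ) ^ (d + 1) * (b : ℝ) ^ ((g + 2) * n) * ((b : ℝ) ^ (w' * L)) ^ d := by gcongr
      _ = (b : ℝ) ^ (d + 1 + (g + 2) * n + w' * L * d) := by
          rw [← pow_mul (b : ℝ) (w' * L) d, ← pow_add, ← pow_add]
      _ ≤ _ := by
          refine pow_le_pow_right₀ hb1 ?_
          have e1 : (g + 3 + d) * n = (g + 2) * n + n + n * d := by ring
          have e2 : w' * L * d ≤ n * d := Nat.mul_le_mul_right _ (by omega)
          rw [e1]
          omega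
  have hmost := most b w' L M D hb hLL (fun j => ev (((b : ℝ) ^ n)⁻¹) (f j)) y _ η (by positivity)
    hη0 hη1 hspread hM'
  have hsub : ((((range M).filter (fun m : ℕ =>
        ¬ JN b w D ε (ε * n) (fun l => y l + m * ev (((b : ℝ) ^ n)⁻¹) (f l)))).card : ℕ) : ℝ) ≤
      ((((range M).filter (fun m : ℕ =>
        ¬ JN b w' D η (w' * L) (fun l => y l + m * ev (((b : ℝ) ^ n)⁻¹) (f l)))).card : ℕ) : ℝ) := by
    refine Nat.cast_le.2 (card_le_card fun m hm => ?_)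
    rw [mem_filter] at hm ⊢
    refine ⟨hm.1, fun hcon => hm.2 (hcon.mono (by omega) (min_le_left _ _) (hwL.trans ?_))⟩
    exact mul_le_mul_of_nonneg_right (min_le_left _ _) hn0.le
  refine hsub.trans (hmost.trans ?_)
  have hMR : (0 : ℝ) ≤ M := Nat.cast_nonneg M
  have hDn : (D : ℝ) + 1 ≤ (n : ℝ) ^ 2 + 1 := by
    have h1 : 1 / (16 * ((C : ℝ) + 1)) ≤ 1 := by
      rw [div_le_one (by positivity)]
      have : (0 : ℝ) ≤ C := Nat.cast_nonneg C
      linarith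
    nlinarith [sq_nonneg (n : ℝ)]
  have hexp : exp (-(η ^ 2 / 4) * L) ≤ exp (η ^ 2 / 4) * (exp (-(κ * n)) * exp (-(κ * n))) := by
    rw [← exp_add, ← exp_add]
    apply exp_le_exp.2
    have h1 : η ^ 2 / 4 * (δ * n) ≤ η ^ 2 / 4 * (L + 1) :=
      mul_le_mul_of_nonneg_left hL2.le (by positivity)
    have h2 : κ * n + κ * n = η ^ 2 / 4 * (δ * n) := by rw [hκ]; ring
    linarith
  have h1 := hn1 n hnn1
  calc ((w' * (b ^ w') ^ d * (D + 1) : ℕ) : ℝ) *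
        (2 * (16 ^ d + 1) * exp (-(η ^ 2 / 4) * L) * M)
      = (w' * (b ^ w') ^ d : ℕ) * ((D : ℝ) + 1) *
        (2 * (16 ^ d + 1) * exp (-(η ^ 2 / 4) * L) * M) := by
        push_cast
        ring
    _ ≤ (w' * (b ^ w') ^ d : ℕ) * ((n : ℝ) ^ 2 + 1) *
        (2 * (16 ^ d + 1) * (exp (η ^ 2 / 4) * (exp (-(κ * n)) * exp (-(κ * n)))) * M) := by gcongr
    _ = ((w' * (b ^ w') ^ d : ℕ) * (2 * (16 ^ d + 1) * exp (η ^ 2 / 4)) * ((n : ℝ) ^ 2 + 1)) *
        (exp (-(κ * n)) * exp (-(κ * n))) * M := by ring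
    _ ≤ exp (κ * n) * (exp (-(κ * n)) * exp (-(κ * n))) * M := by gcongr
    _ = M * exp (-(κ * n)) := by
        have : exp (κ * n) * exp (-(κ * n)) = 1 := by
          rw [← exp_add, add_neg_cancel, exp_zero]
        calc exp (κ * n) * (exp (-(κ * n)) * exp (-(κ * n))) * M =
            (exp (κ * n) * exp (-(κ * n))) * exp (-(κ * n)) * M := by ring
          _ = _ := by rw [this]; ring

end Pool.Agent.H609.JT
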