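import Mathlib

/-!
# Primitive elements which are integral
-/

set_option autoImplicit false

namespace Pool.Agent.H609.JT

open Polynomial IntermediateField

attribute [local instance] FractionRing.liftAlgebra FractionRing.isScalarTower_liftAlgebra

/-- **Primitive elements.** -/
theorem prim {R S : Type} [CommRing R] [IsDomain R] [CharZero R] [CommRing S] [IsDomain S]
    [IsIntegrallyClosed S] [Algebra R S] [FaithfulSMul R S] {d : ℕ} (f : Fin d → S)
    (hf : ∀ j, IsAlgebraic R (f j)) :
    ∃ θ : S, IsIntegral R θ ∧ ∀ j, ∃ (r : R) (Q : R[X]), r ≠ 0 ∧ r • f j = aeval θ Q := by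
  classical
  let L := FractionRing S
  have : FaithfulSMul R L := by
    rw [faithfulSMul_iff_algebraMap_injective, IsScalarTower.algebraMap_eq R S L]
    exact (IsFractionRing.injective S L).comp (FaithfulSMul.algebraMap_injective R S)
  let k := FractionRing R
  have : CharZero k := charZero_of_injective_algebraMap (IsFractionRing.injective R k)
  let F : Fin d → L := fun j => algebraMap S L (f j)
  have hF : ∀ x ∈ Set.range F, IsIntegral k x := by
    rintro _ ⟨j, rfl⟩
    have h1 : IsAlgebraic R (F j) := (hf j).algebraMap
    exact ((IsFractionRing.isAlgebraic_iff R k L).1 h1).isIntegral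
  let K : IntermediateField k L := adjoin k (Set.range F)
  have : FiniteDimensional k K := finiteDimensional_adjoin hF
  obtain ⟨α, hα⟩ := Field.exists_primitive_element k K
  have hαL : IsAlgebraic R (α : L) := by
    have h1 : IsAlgebraic k α := Algebra.IsAlgebraic.isAlgebraic α
    have h2 : IsAlgebraic k (α : L) := (isAlgebraic_algebraMap_iff (algebraMap K L).injective).2 h1
    exact (IsFractionRing.isAlgebraic_iff R k L).2 h2
  obtain ⟨a, ha, hint⟩ := hαL.exists_integral_multiple
  obtain ⟨θ, hθ⟩ := IsIntegrallyClosed.isIntegral_iff.1 (hint.tower_top (A := S))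
  refine ⟨θ, ?_, fun j => ?_⟩
  · rw [← hθ] at hint
    exact (isIntegral_algebraMap_iff (IsFractionRing.injective S L)).1 hint
  · -- `F j` is a polynomial in `α`
    have h1 : (⟨F j, subset_adjoin k _ ⟨j, rfl⟩⟩ : K) ∈ k⟮α⟯ := by rw [hα]; exact mem_top
    have hαint : IsIntegral k α := Algebra.IsIntegral.isIntegral α
    have h2 : (⟨F j, subset_adjoin k _ ⟨j, rfl⟩⟩ : K) ∈ Algebra.adjoin k {α} := by
      rw [← adjoin_simple_toSubalgebra_of_isAlgebraic hαint.isAlgebraic]
      exact h1
    rw [Algebra.adjoin_singleton_eq_range_aeval] at h2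
    obtain ⟨p, hp⟩ := h2
    have hp1 : aeval (α : L) p = F j := by
      have h3 := congrArg (algebraMap K L) hp
      have h4 : (algebraMap K L) (aeval α p) = aeval (algebraMap K L α) p :=
        (aeval_algebraMap_apply L α p).symm
      exact h4.symm.trans h3
    -- replace `α` by `a α`
    have ha' : algebraMap R k a ≠ 0 := by
      rw [Ne, IsFractionRing.to_map_eq_zero_iff]
      exact ha
    let p' : k[X] := p.comp (C (algebraMap R k a)⁻¹ * X)
    have hp2 : aeval (algebraMap S L θ) p' = F j := by
      have h3 : algebraMap k L ((algebraMap R k a)⁻¹) * algebraMap S L θ = (α : L) := by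
        rw [hθ, Algebra.smul_def, IsScalarTower.algebraMap_apply R k L, ← mul_assoc, ← map_mul,
          inv_mul_cancel₀ ha', map_one, one_mul]
      rw [← hp1, aeval_comp]
      simp only [map_mul, aeval_C, aeval_X]
      rw [h3]
    obtain ⟨r, hr, hb⟩ := IsLocalization.integerNormalization_spec (nonZeroDivisors R) p'
    refine ⟨r, IsLocalization.integerNormalization (nonZeroDivisors R) p',
      nonZeroDivisors.ne_zero hr, ?_⟩
    apply IsFractionRing.injective S L
    have h5 : aeval (algebraMap S L θ) ((IsLocalization.integerNormalization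
        (nonZeroDivisors R) p').map (algebraMap R k)) = r • F j := by
      rw [hb, ← algebraMap_smul k r p', map_smul, hp2, algebraMap_smul]
    rw [aeval_map_algebraMap] at h5
    rw [← aeval_algebraMap_apply, h5]
    simp only [F, Algebra.smul_def, map_mul]
    rw [← IsScalarTower.algebraMap_apply]

end Pool.Agent.H609.JT
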