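import Pool.Agent.H609.JT.Deg
import Pool.Agent.H609.JT.Prim
import Pool.Agent.H609.JT.Main

/-!
# Linear independence of the values at `b ^ (-n)` of algebraic power series
-/

set_option autoImplicit false

namespace Pool.Agent.H609.JT

open Finset PowerSeries
open Pool.Agent.H609.GF (Sm ev evA SmA polyA polyA_val evA_polyA Sm_poly ev_poly rel SG SG_poly
  SG_of_alg value_bounds common_den poly_int poly_ne)

/-- a matrix with independent rows has a right inverse, up to a nonzero constant -/
lemma right_inverse {R : Type} [CommRing R] [IsDomain R] {d D : ℕ} (c : Fin d → Fin D → R)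
    (h : ∀ u : Fin d → R, (∀ i, ∑ j, u j * c j i = 0) → u = 0) :
    ∃ (g : R) (B : Fin D → Fin d → R), g ≠ 0 ∧
      ∀ j l, ∑ i, c j i * B i l = if j = l then g else 0 := by
  classical
  let K := FractionRing R
  let C : Fin d → Fin D → K := fun j i => algebraMap R K (c j i)
  have hinj : Function.Injective (algebraMap R K) := IsFractionRing.injective R K
  have hC : LinearIndependent K C := by
    rw [← LinearIndependent.iff_fractionRing R K, Fintype.linearIndependent_iff]
    intro u hu j
    have h1 : u = 0 := by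
      refine h u (fun i => hinj ?_)
      have h2 := congrFun hu i
      rw [Finset.sum_apply, Pi.zero_apply] at h2
      rw [map_zero, ← h2, map_sum]
      refine sum_congr rfl fun j _ => ?_
      rw [Pi.smul_apply, Algebra.smul_def, map_mul]
    rw [h1, Pi.zero_apply]
  let T : (Fin d → K) →ₗ[K] (Fin D → K) := Fintype.linearCombination K C
  have hT : LinearMap.ker T = ⊥ := by
    rw [LinearMap.ker_eq_bot']
    intro m hm
    rw [Fintype.linearIndependent_iff] at hC
    ext j
    exact hC m (by rw [← hm]; exact (Fintype.linearCombination_apply K C m).symm) j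
  obtain ⟨S, hS⟩ := LinearMap.exists_leftInverse_of_injective T hT
  obtain ⟨g, hg⟩ := IsLocalization.exist_integer_multiples (nonZeroDivisors R)
    (univ : Finset (Fin D × Fin d)) (fun p => S (fun i => if p.1 = i then (1 : K) else 0) p.2)
  have hg' : ∀ p : Fin D × Fin d, ∃ z : R, algebraMap R K z =
      (g : R) • S (fun i => if p.1 = i then (1 : K) else 0) p.2 := fun p => hg p (mem_univ _)
  choose z hz using hg'
  refine ⟨g, fun i l => z (i, l), nonZeroDivisors.ne_zero g.2, fun j l => hinj ?_⟩
  rw [map_sum]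
  have h1 : S (C j) l = if j = l then 1 else 0 := by
    have h2 : T (Pi.single j 1) = C j := by
      rw [Fintype.linearCombination_apply, sum_eq_single_of_mem j (mem_univ _)]
      · rw [Pi.single_eq_same, one_smul]
      · intro k _ hk
        rw [Pi.single_eq_of_ne hk, zero_smul]
    rw [← h2, ← LinearMap.comp_apply, hS, LinearMap.id_apply, Pi.single_apply]
    by_cases h3 : j = l
    · rw [if_pos h3, if_pos h3.symm]
    · rw [if_neg h3, if_neg (fun h4 => h3 h4.symm)]
  have h3 : S (C j) l = ∑ i, C j i * S (fun k => if i = k then (1 : K) else 0) l := by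
    rw [LinearMap.pi_apply_eq_sum_univ S (C j), Finset.sum_apply]
    exact sum_congr rfl fun i _ => by rw [Pi.smul_apply, smul_eq_mul]
  calc ∑ i, algebraMap R K (c j i * z (i, l)) =
      algebraMap R K g * ∑ i, C j i * S (fun k => if i = k then (1 : K) else 0) l := by
        rw [mul_sum]
        refine sum_congr rfl fun i _ => ?_
        rw [map_mul, hz, Algebra.smul_def]
        simp only [C]
        ring
    _ = algebraMap R K (if j = l then (g : R) else 0) := by
        rw [← h3, h1]
        split_ifs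
        · rw [mul_one]
        · rw [mul_zero, map_zero]

lemma eval_cast (p : Polynomial ℚ) (q : ℚ) :
    ((Polynomial.eval q p : ℚ) : ℝ) = Polynomial.aeval (q : ℝ) p := by
  have := Polynomial.aeval_algebraMap_apply ℝ q p
  simp only [eq_ratCast, Polynomial.coe_aeval_eq_eval] at this
  exact this.symm

/-- **Linear independence of the values.** -/
theorem indep {d : ℕ} (f : Fin d → ℚ⟦X⟧) (hf : ∀ j, IsAlgebraic (Polynomial ℚ) (f j))
    (hind : ∀ P : Fin d → Polynomial ℚ, ∑ j, (P j : ℚ⟦X⟧) * f j = 0 → P = 0)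
    (b : ℕ) (hb : 2 ≤ b) :
    ∃ n₀ : ℕ, ∀ n : ℕ, n₀ ≤ n → (∀ j, Sm (((b : ℝ) ^ n)⁻¹) (f j)) →
      LinearIndependent ℚ (fun j => ev (((b : ℝ) ^ n)⁻¹) (f j)) := by
  classical
  have : FaithfulSMul (Polynomial ℚ) ℚ⟦X⟧ := by
    rw [faithfulSMul_iff_algebraMap_injective]
    intro p q h
    rw [algebraMap_poly, algebraMap_poly] at h
    exact Polynomial.coe_injective ℚ h
  obtain ⟨θ, hθ, hprim⟩ := prim f hf
  choose r Q hr hrQ using hprim
  set P := minpoly (Polynomial ℚ) θ with hP
  set D := P.natDegree with hD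
  have hmon : P.Monic := minpoly.monic hθ
  have hD0 : 1 ≤ D := minpoly.natDegree_pos hθ
  -- the coefficients
  have hcomb : ∀ j, (r j : ℚ⟦X⟧) * f j =
      ∑ i ∈ range D, ((Q j %ₘ P).coeff i : ℚ⟦X⟧) * θ ^ i := by
    intro j
    have h1 : (Q j %ₘ P).natDegree < D := by
      refine Polynomial.natDegree_modByMonic_lt _ hmon ?_
      intro h2
      rw [h2, Polynomial.natDegree_one] at hD
      omega
    have h2 := hrQ j
    rw [← Polynomial.aeval_modByMonic_eq_self_of_root (minpoly.aeval (Polynomial ℚ) θ),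
      Polynomial.aeval_eq_sum_range' h1, Algebra.smul_def, algebraMap_poly] at h2
    rw [h2]
    exact sum_congr rfl fun i _ => by rw [Algebra.smul_def, algebraMap_poly]
  set c : Fin d → Fin D → Polynomial ℚ := fun j i => (Q j %ₘ P).coeff i with hc
  obtain ⟨g, B, hg, hB⟩ := right_inverse c (by
    intro u hu
    have h1 : (fun j => u j * r j) = 0 := by
      apply hind
      have h2 : ∀ j, ((u j * r j : Polynomial ℚ) : ℚ⟦X⟧) * f j =
          ∑ i : Fin D, ((u j * c j i : Polynomial ℚ) : ℚ⟦X⟧) * θ ^ (i : ℕ) := by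
        intro j
        rw [Polynomial.coe_mul, mul_assoc, hcomb, Finset.sum_range, mul_sum]
        refine sum_congr rfl fun i _ => ?_
        rw [Polynomial.coe_mul, mul_assoc]
      rw [sum_congr rfl fun j _ => h2 j, sum_comm]
      refine sum_eq_zero fun i _ => ?_
      rw [← sum_mul]
      have h3 : ∑ j, ((u j * c j i : Polynomial ℚ) : ℚ⟦X⟧) = 0 := by
        have h4 := congrArg (fun p : Polynomial ℚ => (p : ℚ⟦X⟧)) (hu i)
        simp only [Polynomial.coe_zero] at h4
        rw [← h4, ← Polynomial.coeToPowerSeries.ringHom_apply, map_sum]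
        rfl
      rw [h3, zero_mul]
    funext j
    have h2 := congrFun h1 j
    exact (mul_eq_zero.1 h2).resolve_right (hr j))
  obtain ⟨n1, hn1⟩ := poly_ne hg b hb
  have hex : ∀ j, ∃ n₀ : ℕ, ∀ n, n₀ ≤ n → Polynomial.aeval (((b : ℝ) ^ n)⁻¹) (r j) ≠ 0 := fun j =>
    poly_ne (hr j) b hb
  choose n2 hn2 using hex
  obtain ⟨n3, hn3⟩ := deg_ge hθ b hb
  -- the summability of `θ`
  obtain ⟨C, hC0, hC⟩ := SG_of_alg hθ.isAlgebraic
  refine ⟨max (max n1 n3) (max (C + 1) (univ.sup n2)), fun n hn hsm => ?_⟩
  have hnn1 : n1 ≤ n := le_trans (le_trans (le_max_left _ _) (le_max_left _ _)) hn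
  have hnn3 : n3 ≤ n := le_trans (le_trans (le_max_right _ _) (le_max_left _ _)) hn
  have hnC : C + 1 ≤ n := le_trans (le_trans (le_max_left _ _) (le_max_right _ _)) hn
  have hnn2 : ∀ j, n2 j ≤ n := fun j =>
    le_trans (le_trans (Finset.le_sup (f := n2) (mem_univ j))
      (le_trans (le_max_right _ _) (le_max_right _ _))) hn
  have hsθ := sm_of_gr hC b hb n hnC
  have hdeg := hn3 n hnn3 hsθ
  have hg1 := hn1 n hnn1
  have hr1 := fun j => hn2 j n (hnn2 j)
  set xq : ℚ := ((b : ℚ) ^ n)⁻¹ with hxq
  have hx : (((b : ℝ) ^ n)⁻¹) = ((xq : ℚ) : ℝ) := by rw [hxq]; push_cast; rfl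
  rw [hx] at hsθ hdeg hg1 hsm ⊢
  simp only [hx] at hr1
  set t : ℝ := ev (xq : ℝ) θ with ht
  set x : ℝ := (xq : ℝ) with hxdef
  -- the values
  have hval : ∀ j, Polynomial.aeval x (r j) * ev x (f j) =
      ∑ i : Fin D, Polynomial.aeval x (c j i) * t ^ (i : ℕ) := by
    intro j
    have h1 : ev x ((r j : ℚ⟦X⟧) * f j) = Polynomial.aeval x (r j) * ev x (f j) := by
      rw [Pool.Agent.H609.GF.ev_mul (Sm_poly x (r j)) (hsm j), ev_poly]
    rw [← h1, hcomb j, ev_comb hsθ (fun i => (Q j %ₘ P).coeff i) D, Finset.sum_range]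
  rw [Fintype.linearIndependent_iff]
  intro u hu
  -- the rational numbers `v j`
  set v : Fin d → ℚ := fun j => u j / Polynomial.eval xq (r j) with hv
  have hreal : ∀ j, (v j : ℝ) * (Polynomial.aeval x (r j) * ev x (f j)) = u j • ev x (f j) := by
    intro j
    have h1 : Polynomial.aeval x (r j) ≠ 0 := hr1 j
    simp only [hv]
    rw [Algebra.smul_def, eq_ratCast]
    push_cast
    rw [eval_cast, ← hxdef]
    field_simp
  have hsum : ∑ i : Fin D, (∑ j, v j * Polynomial.eval xq (c j i)) • t ^ (i : ℕ) = 0 := by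
    rw [← hu]
    calc ∑ i : Fin D, (∑ j, v j * Polynomial.eval xq (c j i)) • t ^ (i : ℕ) =
        ∑ i : Fin D, ∑ j, (v j : ℝ) * (Polynomial.aeval x (c j i) * t ^ (i : ℕ)) := by
          refine sum_congr rfl fun i _ => ?_
          rw [Algebra.smul_def, eq_ratCast]
          push_cast
          rw [sum_mul]
          refine sum_congr rfl fun j _ => ?_
          rw [eval_cast, mul_assoc]
      _ = ∑ j, (v j : ℝ) * ∑ i : Fin D, Polynomial.aeval x (c j i) * t ^ (i : ℕ) := by
          rw [sum_comm]
          exact sum_congr rfl fun j _ => by rw [mul_sum]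
      _ = _ := by
          refine sum_congr rfl fun j _ => ?_
          rw [← hval j, hreal j]
  have hpow : LinearIndependent ℚ (fun i : Fin D => t ^ (i : ℕ)) := by
    have h1 := linearIndependent_pow (K := ℚ) t
    exact h1.comp (Fin.castLE hdeg) (Fin.castLE_injective hdeg)
  have hzero : ∀ i : Fin D, ∑ j, v j * Polynomial.eval xq (c j i) = 0 :=
    Fintype.linearIndependent_iff.1 hpow _ hsum
  intro l
  have hgq : Polynomial.eval xq g ≠ 0 := by
    intro h0
    apply hg1
    rw [hxdef, ← eval_cast, h0, Rat.cast_zero]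
  have h1 : v l * Polynomial.eval xq g = 0 := by
    calc v l * Polynomial.eval xq g =
        ∑ j, v j * Polynomial.eval xq (if j = l then g else 0) := by
          rw [sum_eq_single_of_mem l (mem_univ _)]
          · rw [if_pos rfl]
          · intro j _ hj
            rw [if_neg hj, Polynomial.eval_zero, mul_zero]
      _ = ∑ j, v j * ∑ i, Polynomial.eval xq (c j i) * Polynomial.eval xq (B i l) := by
          refine sum_congr rfl fun j _ => ?_
          rw [← hB j l, Polynomial.eval_finsetSum]
          simp only [Polynomial.eval_mul]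
      _ = ∑ i, (∑ j, v j * Polynomial.eval xq (c j i)) * Polynomial.eval xq (B i l) := by
          simp only [mul_sum, sum_mul]
          rw [sum_comm]
          exact sum_congr rfl fun i _ => sum_congr rfl fun j _ => by ring
      _ = 0 := sum_eq_zero fun i _ => by rw [hzero i, zero_mul]
  have h2 : v l = 0 := (mul_eq_zero.1 h1).resolve_right hgq
  have h3 : Polynomial.eval xq (r l) ≠ 0 := by
    intro h0
    apply hr1 l
    rw [← eval_cast, h0, Rat.cast_zero]
  simp only [hv] at h2
  exact (div_eq_zero_iff.1 h2).resolve_right h3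

end Pool.Agent.H609.JT
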