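import Pool.Agent.H609.JT.Norm
import Pool.Agent.H609.GF.Irr2

/-!
# The degree of the value of an algebraic power series at `b ^ (-n)` is the degree of the series

This is a case of a theorem of Sprindzhuk; the proof is that of Siegel.
-/

set_option autoImplicit false

namespace Pool.Agent.H609.JT

open Finset PowerSeries
open Pool.Agent.H609.GF (Sm ev evA SmA polyA polyA_val evA_polyA Sm_poly ev_poly rel SG SG_poly
  SG_of_alg value_bounds common_den poly_int poly_ne)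

lemma algebraMap_poly (p : Polynomial ℚ) : algebraMap (Polynomial ℚ) ℚ⟦X⟧ p = (p : ℚ⟦X⟧) := by
  rw [PowerSeries.algebraMap_apply', Algebra.algebraMap_self, PowerSeries.map_id]
  rfl

/-- the powers are independent -/
lemma pow_indep {θ : ℚ⟦X⟧} (hθ : IsIntegral (Polynomial ℚ) θ) (Q : ℕ → Polynomial ℚ)
    (h : ∑ i ∈ range (minpoly (Polynomial ℚ) θ).natDegree, (Q i : ℚ⟦X⟧) * θ ^ i = 0) :
    ∀ i < (minpoly (Polynomial ℚ) θ).natDegree, Q i = 0 := by
  classical
  set D := (minpoly (Polynomial ℚ) θ).natDegree with hD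
  let p : Polynomial (Polynomial ℚ) := ∑ i ∈ range D, Polynomial.monomial i (Q i)
  have hp : Polynomial.aeval θ p = 0 := by
    rw [← h]
    simp only [p, map_sum, Polynomial.aeval_monomial, algebraMap_poly]
  have hcoeff : ∀ i < D, p.coeff i = Q i := by
    intro i hi
    simp only [p, Polynomial.finsetSum_coeff, Polynomial.coeff_monomial]
    rw [sum_ite_eq' (range D) i Q, if_pos (mem_range.2 hi)]
  have hdeg : p.degree < D := by
    rw [Polynomial.degree_lt_iff_coeff_zero]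
    intro m hm
    simp only [p, Polynomial.finsetSum_coeff, Polynomial.coeff_monomial]
    rw [sum_ite_eq' (range D) m Q, if_neg (by rw [mem_range]; omega)]
  by_contra hcon
  push Not at hcon
  obtain ⟨i, hi, hi0⟩ := hcon
  have hp0 : p ≠ 0 := by
    intro h0
    apply hi0
    rw [← hcoeff i hi, h0, Polynomial.coeff_zero]
  have h1 := minpoly.IsIntegrallyClosed.degree_le_of_ne_zero (R := Polynomial ℚ) hp0 hp
  have h2 : (minpoly (Polynomial ℚ) θ).degree = D := by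
    rw [Polynomial.degree_eq_natDegree (minpoly.monic hθ).ne_zero]
  rw [h2] at h1
  exact absurd hdeg (not_lt.2 h1)

/-- **Siegel's lemma** for the powers of a power series. -/
lemma siegel (θ : ℚ⟦X⟧) (D L : ℕ) (hD : 1 ≤ D) : ∃ Q : ℕ → Polynomial ℚ,
    (∃ i < D, Q i ≠ 0) ∧ (∀ i < D, (Q i).natDegree ≤ L) ∧
      ∀ k < D * (L + 1) - 1, coeff k (∑ i ∈ range D, (Q i : ℚ⟦X⟧) * θ ^ i) = 0 := by
  classical
  let T : (Fin D × Fin (L + 1) → ℚ) →ₗ[ℚ] (Fin (D * (L + 1) - 1) → ℚ) :=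
    { toFun := fun v k => ∑ p : Fin D × Fin (L + 1),
        v p * coeff (k : ℕ) ((X : ℚ⟦X⟧) ^ (p.2 : ℕ) * θ ^ (p.1 : ℕ))
      map_add' := by
        intro u v
        ext i
        simp only [Pi.add_apply, add_mul, sum_add_distrib]
      map_smul' := by
        intro c v
        ext i
        simp only [Pi.smul_apply, smul_eq_mul, RingHom.id_apply, mul_sum, mul_assoc] }
  have hpos : 0 < D * (L + 1) := by positivity
  have hker := LinearMap.ker_ne_bot_of_finrank_lt (f := T) (by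
    simp only [Module.finrank_fintype_fun_eq_card, Fintype.card_prod, Fintype.card_fin]
    omega)
  obtain ⟨v, hv, hv0⟩ := (Submodule.ne_bot_iff _).1 hker
  rw [LinearMap.mem_ker] at hv
  let Q : ℕ → Polynomial ℚ := fun i => if h : i < D then
    ∑ l : Fin (L + 1), Polynomial.C (v (⟨i, h⟩, l)) * Polynomial.X ^ (l : ℕ) else 0
  have hQ : ∀ (i : Fin D), Q i = ∑ l : Fin (L + 1),
      Polynomial.C (v (i, l)) * Polynomial.X ^ (l : ℕ) := by
    intro i
    simp only [Q, dif_pos i.2, Fin.eta]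
  refine ⟨Q, ?_, ?_, ?_⟩
  · by_contra hcon
    push Not at hcon
    apply hv0
    ext ⟨i, l⟩
    have h1 := hcon i i.2
    rw [hQ i] at h1
    have h2 := congrArg (fun p => Polynomial.coeff p (l : ℕ)) h1
    simp only [Polynomial.finsetSum_coeff, Polynomial.coeff_C_mul, Polynomial.coeff_X_pow,
      Polynomial.coeff_zero] at h2
    rw [sum_eq_single_of_mem l (mem_univ _)] at h2
    · simpa using h2
    · intro l' _ hl'
      rw [if_neg, mul_zero]
      intro h3
      exact hl' (Fin.ext h3.symm)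
  · intro i hi
    rw [show i = ((⟨i, hi⟩ : Fin D) : ℕ) from rfl, hQ]
    refine Polynomial.natDegree_sum_le_of_forall_le _ _ fun l _ => ?_
    exact (Polynomial.natDegree_C_mul_X_pow_le _ _).trans (by have := l.2; omega)
  · intro k hk
    have h1 := congrFun hv ⟨k, hk⟩
    simp only [T, LinearMap.coe_mk, AddHom.coe_mk, Pi.zero_apply] at h1
    rw [← h1, Finset.sum_range, map_sum, Fintype.sum_prod_type]
    refine sum_congr rfl fun i _ => ?_
    rw [hQ i]
    have h2 : ((∑ l : Fin (L + 1), Polynomial.C (v (i, l)) * Polynomial.X ^ (l : ℕ) :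
        Polynomial ℚ) : ℚ⟦X⟧) = ∑ l : Fin (L + 1), C (v (i, l)) * (X : ℚ⟦X⟧) ^ (l : ℕ) := by
      rw [← Polynomial.coeToPowerSeries.ringHom_apply, map_sum]
      refine sum_congr rfl fun l _ => ?_
      rw [map_mul, map_pow, Polynomial.coeToPowerSeries.ringHom_apply,
        Polynomial.coeToPowerSeries.ringHom_apply, Polynomial.coe_C, Polynomial.coe_X]
    rw [h2, sum_mul, map_sum]
    refine sum_congr rfl fun l _ => ?_
    rw [mul_assoc, coeff_C_mul]

/-- the value of a polynomial at small points is bounded -/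
lemma poly_bound (Q : Polynomial ℚ) {x : ℝ} (hx0 : 0 ≤ x) (hx1 : x ≤ 1) :
    |Polynomial.aeval x Q| ≤ ∑ i ∈ range (Q.natDegree + 1), |((Q.coeff i : ℚ) : ℝ)| := by
  rw [Polynomial.aeval_eq_sum_range]
  refine (abs_sum_le_sum_abs _ _).trans (sum_le_sum fun i _ => ?_)
  rw [Algebra.smul_def, abs_mul, eq_ratCast]
  have h1 : |x ^ i| ≤ 1 := by
    rw [abs_of_nonneg (pow_nonneg hx0 i)]
    exact pow_le_one₀ hx0 hx1
  calc |((Q.coeff i : ℚ) : ℝ)| * |x ^ i| ≤ |((Q.coeff i : ℚ) : ℝ)| * 1 :=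
        mul_le_mul_of_nonneg_left h1 (abs_nonneg _)
    _ = _ := mul_one _

lemma ev_comb {x : ℝ} {θ : ℚ⟦X⟧} (hθ : Sm x θ) (Q : ℕ → Polynomial ℚ) (D : ℕ) :
    ev x (∑ i ∈ range D, (Q i : ℚ⟦X⟧) * θ ^ i) =
      ∑ i ∈ range D, Polynomial.aeval x (Q i) * ev x θ ^ i := by
  let F : SmA x := ⟨θ, hθ⟩
  have h1 : ((∑ i ∈ range D, polyA x (Q i) * F ^ i : SmA x) : ℚ⟦X⟧) =
      ∑ i ∈ range D, (Q i : ℚ⟦X⟧) * θ ^ i := by
    push_cast
    refine sum_congr rfl fun i _ => ?_
    rw [polyA_val]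
  have h2 : ev x (∑ i ∈ range D, (Q i : ℚ⟦X⟧) * θ ^ i) =
      evA x (∑ i ∈ range D, polyA x (Q i) * F ^ i) := by
    rw [← h1]
    rfl
  rw [h2, map_sum]
  refine sum_congr rfl fun i _ => ?_
  rw [map_mul, map_pow, evA_polyA]
  rfl

/-- the roots of a monic polynomial with bounded coefficients are bounded -/
lemma root_bound (D : ℕ) (p : ℕ → ℂ) (S : ℝ) (hS : 0 ≤ S) (hp : ∑ i ∈ range D, ‖p i‖ ≤ S) (z : ℂ)
    (hz : z ^ D + ∑ i ∈ range D, p i * z ^ i = 0) : ‖z‖ ≤ 1 + S := by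
  by_contra hcon
  push Not at hcon
  have hz1 : 1 ≤ ‖z‖ := by linarith
  rcases Nat.eq_zero_or_pos D with h0 | h0
  · subst h0
    simp at hz
  · have h1 : ‖z‖ ^ D ≤ S * ‖z‖ ^ (D - 1) := by
      have h2 : z ^ D = -∑ i ∈ range D, p i * z ^ i := by linear_combination hz
      rw [← norm_pow, h2, norm_neg]
      refine (norm_sum_le _ _).trans ?_
      calc ∑ i ∈ range D, ‖p i * z ^ i‖ ≤ ∑ i ∈ range D, ‖p i‖ * ‖z‖ ^ (D - 1) := by
            refine sum_le_sum fun i hi => ?_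
            rw [mem_range] at hi
            rw [norm_mul, norm_pow]
            exact mul_le_mul_of_nonneg_left (pow_le_pow_right₀ hz1 (by omega)) (norm_nonneg _)
        _ = (∑ i ∈ range D, ‖p i‖) * ‖z‖ ^ (D - 1) := by rw [sum_mul]
        _ ≤ _ := mul_le_mul_of_nonneg_right hp (by positivity)
    have h2 : ‖z‖ ^ D = ‖z‖ * ‖z‖ ^ (D - 1) := by
      rw [← pow_succ']
      congr 1
      omega
    rw [h2] at h1
    have h3 : ‖z‖ ≤ S := le_of_mul_le_mul_right h1 (by positivity)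
    linarith

/-- the product of a number with a large denominator is integral -/
lemma integral_mul {t : ℝ} (D : ℕ) (p : ℕ → ℝ) (a : ℕ) (z : ℕ → ℤ)
    (hz : ∀ i < D, (a : ℝ) * p i = z i) (h : t ^ D + ∑ i ∈ range D, p i * t ^ i = 0) :
    IsIntegral ℤ ((a : ℝ) * t) := by
  let q : Polynomial ℤ := ∑ i ∈ range D, Polynomial.monomial i (z i * (a : ℤ) ^ (D - 1 - i))
  refine ⟨Polynomial.X ^ D + q, ?_, ?_⟩
  · apply Polynomial.monic_X_pow_add
    rw [Polynomial.degree_lt_iff_coeff_zero]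
    intro m hm
    simp only [q, Polynomial.finsetSum_coeff, Polynomial.coeff_monomial]
    rw [sum_ite_eq' (range D) m, if_neg (by rw [mem_range]; omega)]
  · rw [Polynomial.eval₂_add, Polynomial.eval₂_X_pow]
    have h1 : Polynomial.eval₂ (algebraMap ℤ ℝ) ((a : ℝ) * t) q =
        (a : ℝ) ^ D * ∑ i ∈ range D, p i * t ^ i := by
      simp only [q, Polynomial.eval₂_finsetSum, Polynomial.eval₂_monomial]
      rw [mul_sum]
      refine sum_congr rfl fun i hi => ?_
      rw [mem_range] at hi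
      have h2 := hz i hi
      simp only [eq_intCast, Int.cast_mul, Int.cast_pow, Int.cast_natCast]
      rw [← h2, mul_pow]
      have h3 : (a : ℝ) ^ D = a * (a : ℝ) ^ (D - 1 - i) * (a : ℝ) ^ i := by
        rw [← pow_succ', ← pow_add]
        congr 1
        omega
      rw [h3]
      ring
    rw [h1, mul_pow, ← mul_add, h, mul_zero]

/-- the monic relation for the values -/
lemma monic_rel {θ : ℚ⟦X⟧} (hθ : IsIntegral (Polynomial ℚ) θ) {x : ℝ} (hsm : Sm x θ) :
    ev x θ ^ (minpoly (Polynomial ℚ) θ).natDegree +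
      ∑ i ∈ range (minpoly (Polynomial ℚ) θ).natDegree,
        Polynomial.aeval x ((minpoly (Polynomial ℚ) θ).coeff i) * ev x θ ^ i = 0 := by
  have h1 := rel hsm (minpoly.aeval (Polynomial ℚ) θ)
  rw [sum_range_succ] at h1
  have h2 : (minpoly (Polynomial ℚ) θ).coeff (minpoly (Polynomial ℚ) θ).natDegree = 1 :=
    (minpoly.monic hθ)
  rw [h2, map_one, one_mul] at h1
  linarith

/-- the facts about the values which follow from the monic relation -/
lemma facts {t : ℝ} {xq : ℚ} (D : ℕ) (p : ℕ → Polynomial ℚ) (S : ℝ) (hS0 : 0 ≤ S)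
    (hS : ∑ i ∈ range D, |Polynomial.aeval (xq : ℝ) (p i)| ≤ S)
    (h : t ^ D + ∑ i ∈ range D, Polynomial.aeval (xq : ℝ) (p i) * t ^ i = 0) :
    IsIntegral ℚ t ∧ ∀ z : ℂ, Polynomial.aeval z (minpoly ℚ t) = 0 → ‖z‖ ≤ 1 + S := by
  have hev : ∀ i, ((Polynomial.eval xq (p i) : ℚ) : ℝ) = Polynomial.aeval (xq : ℝ) (p i) := by
    intro i
    have := Polynomial.aeval_algebraMap_apply ℝ xq (p i)
    simp only [eq_ratCast, Polynomial.coe_aeval_eq_eval] at this
    exact this.symm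
  let Pq : Polynomial ℚ := Polynomial.X ^ D +
    ∑ i ∈ range D, Polynomial.monomial i (Polynomial.eval xq (p i))
  have hmon : Pq.Monic := by
    apply Polynomial.monic_X_pow_add
    rw [Polynomial.degree_lt_iff_coeff_zero]
    intro m hm
    simp only [Polynomial.finsetSum_coeff, Polynomial.coeff_monomial]
    rw [sum_ite_eq' (range D) m, if_neg (by rw [mem_range]; omega)]
  have hPt : Polynomial.aeval t Pq = 0 := by
    simp only [Pq, map_add, map_pow, Polynomial.aeval_X, map_sum, Polynomial.aeval_monomial,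
      eq_ratCast, hev]
    exact h
  refine ⟨⟨Pq, hmon, hPt⟩, fun z hz => ?_⟩
  obtain ⟨q, hq⟩ := minpoly.dvd ℚ t hPt
  have hz2 : Polynomial.aeval z Pq = 0 := by rw [hq, map_mul, hz, zero_mul]
  simp only [Pq, map_add, map_pow, Polynomial.aeval_X, map_sum, Polynomial.aeval_monomial,
      eq_ratCast] at hz2
  refine root_bound D (fun i => ((Polynomial.eval xq (p i) : ℚ) : ℂ)) S hS0 ?_ z hz2
  refine le_trans (le_of_eq (sum_congr rfl fun i _ => ?_)) hS
  rw [← hev i, ← Complex.ofReal_ratCast, Complex.norm_real, Real.norm_eq_abs]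

/-- **The degree of the values.** -/
theorem deg_ge {θ : ℚ⟦X⟧} (hθ : IsIntegral (Polynomial ℚ) θ) (b : ℕ) (hb : 2 ≤ b) :
    ∃ n₀ : ℕ, ∀ n : ℕ, n₀ ≤ n → Sm (((b : ℝ) ^ n)⁻¹) θ →
      (minpoly (Polynomial ℚ) θ).natDegree ≤
        (minpoly ℚ (ev (((b : ℝ) ^ n)⁻¹) θ)).natDegree := by
  classical
  set P := minpoly (Polynomial ℚ) θ with hP
  set D := P.natDegree with hD
  have hD0 : 1 ≤ D := minpoly.natDegree_pos hθ
  have hb0 : (0 : ℝ) < b := by exact_mod_cast (by omega : 0 < b)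
  have hb1 : (1 : ℝ) ≤ b := by exact_mod_cast (by omega : 1 ≤ b)
  have hbR : (1 : ℝ) < b := by exact_mod_cast (by omega : 1 < b)
  -- the constants of the polynomial
  set h := (range (D + 1)).sup fun j => (P.coeff j).natDegree with hh
  have hhj : ∀ j < D, (P.coeff j).natDegree ≤ h := fun j hj =>
    Finset.le_sup (f := fun j => (P.coeff j).natDegree) (mem_range.2 (by omega))
  obtain ⟨Δ, hΔ1, hΔ⟩ := common_den (fun j i => (P.coeff j).coeff i) h D
  set S : ℝ := ∑ j ∈ range D, ∑ i ∈ range ((P.coeff j).natDegree + 1),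
    |(((P.coeff j).coeff i : ℚ) : ℝ)| with hS
  have hS0 : 0 ≤ S := sum_nonneg fun _ _ => sum_nonneg fun _ _ => abs_nonneg _
  -- the auxiliary function
  set e := D - 1 with he
  have hDe : D = e + 1 := by omega
  set L := h * e ^ 2 with hL
  obtain ⟨Q, ⟨i0, hi0, hQi0⟩, hQL, hQ⟩ := siegel θ D L hD0
  set E : ℚ⟦X⟧ := ∑ i ∈ range D, (Q i : ℚ⟦X⟧) * θ ^ i with hE
  have hE0 : E ≠ 0 := fun h0 => hQi0 (pow_indep hθ Q h0 i0 hi0)
  have hESG : E ∈ SG := sum_mem fun i _ => mul_mem (SG_poly (Q i)) (pow_mem (SG_of_alg hθ.isAlgebraic) i)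
  obtain ⟨K, n1, hn1⟩ := value_bounds hESG hE0 b hb _ hQ
  obtain ⟨Δ', hΔ'1, hΔ'⟩ := common_den (fun j i => (Q j).coeff i) L D
  set K1 : ℝ := ∑ j ∈ range D, ∑ i ∈ range ((Q j).natDegree + 1), |(((Q j).coeff i : ℚ) : ℝ)|
    with hK1
  have hK10 : 0 ≤ K1 := sum_nonneg fun _ _ => sum_nonneg fun _ _ => abs_nonneg _
  set K2 : ℝ := max 1 ((Δ : ℝ) ^ e * (D * (Δ' * K1) * (1 + S) ^ D)) with hK2
  have hK21 : 1 ≤ K2 := le_max_left _ _
  obtain ⟨n3, hn3⟩ := pow_unbounded_of_one_lt ((Δ : ℝ) ^ e * Δ' * K * K2 ^ (e - 1)) hbR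
  refine ⟨max n1 n3, fun n hn hsm => ?_⟩
  have hnn1 : n1 ≤ n := le_of_max_le_left hn
  have hnn3 : n3 ≤ n := le_of_max_le_right hn
  obtain ⟨hv1, hv2⟩ := hn1 n hnn1
  set x : ℝ := ((b : ℝ) ^ n)⁻¹ with hx
  set B : ℝ := (b : ℝ) ^ n with hB
  have hB0 : 0 < B := by positivity
  have hB1 : 1 ≤ B := one_le_pow₀ hb1
  have hx0 : 0 < x := by positivity
  have hx1 : x ≤ 1 := inv_le_one_of_one_le₀ hB1
  set t : ℝ := ev x θ with ht
  have hrel : t ^ D + ∑ i ∈ range D, Polynomial.aeval x (P.coeff i) * t ^ i = 0 :=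
    monic_rel hθ hsm
  have hxq : x = ((((b : ℚ) ^ n)⁻¹ : ℚ) : ℝ) := by push_cast; rfl
  obtain ⟨hint, hroot⟩ := facts (t := t) (xq := ((b : ℚ) ^ n)⁻¹) D (fun i => P.coeff i) S hS0 (by
      rw [← hxq]
      exact sum_le_sum fun i _ => poly_bound (P.coeff i) hx0.le hx1) (by rw [← hxq]; exact hrel)
  set D' := (minpoly ℚ t).natDegree with hD'
  have hD'1 : 1 ≤ D' := minpoly.natDegree_pos hint
  by_contra hcon
  rw [not_le] at hcon
  have he1 : 1 ≤ e := by omega
  -- the integers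
  have hz : ∀ i < D, ∃ z : ℤ, (Δ : ℝ) * B ^ h * Polynomial.aeval x (P.coeff i) = z := fun i hi =>
    poly_int (hhj i hi) (fun j hj => hΔ i hi.le j hj) b n hb
  choose! z hz using hz
  have hat : IsIntegral ℤ (((Δ * (b ^ n) ^ h : ℕ) : ℝ) * t) := by
    refine integral_mul D (fun i => Polynomial.aeval x (P.coeff i)) _ z (fun i hi => ?_) hrel
    rw [← hz i hi]
    push_cast
    rfl
  have hZ : ∀ i < D, ∃ Z : ℤ, (Δ' : ℝ) * B ^ L * Polynomial.aeval x (Q i) = Z := fun i hi =>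
    poly_int (hQL i hi) (fun j hj => hΔ' i hi.le j hj) b n hb
  choose! Z hZ using hZ
  have hW : ∀ i < D, |(Z i : ℝ)| ≤ Δ' * K1 * B ^ L := by
    intro i hi
    rw [← hZ i hi, abs_mul, abs_of_nonneg (by positivity)]
    have h1 : |Polynomial.aeval x (Q i)| ≤ K1 := by
      refine (poly_bound (Q i) hx0.le hx1).trans ?_
      exact single_le_sum (f := fun j => ∑ i ∈ range ((Q j).natDegree + 1),
        |(((Q j).coeff i : ℚ) : ℝ)|) (fun _ _ => sum_nonneg fun _ _ => abs_nonneg _)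
        (mem_range.2 hi)
    calc (Δ' : ℝ) * B ^ L * |Polynomial.aeval x (Q i)| ≤ Δ' * B ^ L * K1 :=
          mul_le_mul_of_nonneg_left h1 (by positivity)
      _ = _ := by ring
  have hsum : ∑ i ∈ range D, (Z i : ℝ) * t ^ i = Δ' * B ^ L * ev x E := by
    rw [hE, ev_comb hsm Q D, mul_sum]
    refine sum_congr rfl fun i hi => ?_
    rw [← hZ i (mem_range.1 hi)]
    ring
  have hΔ'0 : (0 : ℝ) < Δ' := by exact_mod_cast hΔ'1
  have hΔ0 : (0 : ℝ) < Δ := by exact_mod_cast hΔ1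
  have hlow := norm_lower hint (1 + S) (by linarith) hroot (Δ * (b ^ n) ^ h) hat D Z
    (Δ' * K1 * B ^ L) (by positivity) hW (by
      rw [hsum]
      have : (0 : ℝ) < ((Δ * (b ^ n) ^ h : ℕ) : ℝ) := by push_cast; positivity
      have h2 : (Δ' : ℝ) * B ^ L ≠ 0 := by positivity
      exact mul_ne_zero (by positivity) (mul_ne_zero h2 hv1))
  rw [hsum, ← hD'] at hlow
  -- the upper bound
  have ha : (((Δ * (b ^ n) ^ h : ℕ) : ℝ)) ^ (D - 1) = (Δ : ℝ) ^ e * B ^ (h * e) := by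
    push_cast
    rw [mul_pow, ← pow_mul]
  rw [ha] at hlow
  have hK0 : 0 < K * x ^ (D * (L + 1) - 1) := lt_of_lt_of_le (abs_pos.2 hv1) hv2
  have hK : 0 < K := by
    by_contra hc
    push Not at hc
    have : K * x ^ (D * (L + 1) - 1) ≤ 0 := mul_nonpos_of_nonpos_of_nonneg hc (by positivity)
    linarith
  set s := h * e + L with hs
  have hY : (Δ : ℝ) ^ e * B ^ (h * e) * (D * (Δ' * K1 * B ^ L) * (1 + S) ^ D) ≤ K2 * B ^ s := by
    calc (Δ : ℝ) ^ e * B ^ (h * e) * (D * (Δ' * K1 * B ^ L) * (1 + S) ^ D) =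
        ((Δ : ℝ) ^ e * (D * (Δ' * K1) * (1 + S) ^ D)) * B ^ s := by
          rw [hs, pow_add]
          ring
      _ ≤ _ := mul_le_mul_of_nonneg_right (le_max_right _ _) (by positivity)
  have hYp : ((Δ : ℝ) ^ e * B ^ (h * e) * (D * (Δ' * K1 * B ^ L) * (1 + S) ^ D)) ^ (D' - 1) ≤
      (K2 * B ^ s) ^ (e - 1) := by
    calc _ ≤ (K2 * B ^ s) ^ (D' - 1) := pow_le_pow_left₀ (by positivity) hY _
      _ ≤ _ := pow_le_pow_right₀ (by
          have : 1 ≤ B ^ s := one_le_pow₀ hB1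
          nlinarith) (by omega)
  have habs : |(Δ' : ℝ) * B ^ L * ev x E| ≤ Δ' * B ^ L * (K * x ^ (D * (L + 1) - 1)) := by
    rw [abs_mul, abs_of_nonneg (by positivity)]
    exact mul_le_mul_of_nonneg_left hv2 (by positivity)
  have hfin : 1 ≤ (Δ : ℝ) ^ e * B ^ (h * e) * (Δ' * B ^ L * (K * x ^ (D * (L + 1) - 1))) *
      (K2 * B ^ s) ^ (e - 1) := by
    refine hlow.trans ?_
    exact mul_le_mul (mul_le_mul_of_nonneg_left habs (by positivity)) hYp (by positivity)
      (by positivity)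
  have hexp : D * (L + 1) - 1 = s * e + e := by
    rw [hDe, hs, hL]
    have : (e + 1) * (h * e ^ 2 + 1) = (h * e + h * e ^ 2) * e + e + 1 := by ring
    omega
  have hBx : B ^ (s * e) * x ^ (D * (L + 1) - 1) ≤ x := by
    rw [hexp, pow_add, ← mul_assoc, ← mul_pow]
    have h1 : B * x = 1 := by rw [hx]; exact mul_inv_cancel₀ hB0.ne'
    rw [h1, one_pow, one_mul]
    calc x ^ e ≤ x ^ 1 := pow_le_pow_of_le_one hx0.le hx1 he1
      _ = x := pow_one x
  have hlast : (Δ : ℝ) ^ e * B ^ (h * e) * (Δ' * B ^ L * (K * x ^ (D * (L + 1) - 1))) *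
      (K2 * B ^ s) ^ (e - 1) ≤ ((Δ : ℝ) ^ e * Δ' * K * K2 ^ (e - 1)) * x := by
    have h1 : B ^ (h * e) * B ^ L * (B ^ s) ^ (e - 1) = B ^ (s * e) := by
      rw [← pow_add B (h * e) L, ← pow_mul B s (e - 1), ← pow_add B]
      congr 1
      have h2 : s * e = s * (e - 1) + s := by
        have : e = (e - 1) + 1 := by omega
        conv_lhs => rw [this]
        ring
      rw [h2, hs]
      omega
    calc (Δ : ℝ) ^ e * B ^ (h * e) * (Δ' * B ^ L * (K * x ^ (D * (L + 1) - 1))) *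
        (K2 * B ^ s) ^ (e - 1) = ((Δ : ℝ) ^ e * Δ' * K * K2 ^ (e - 1)) *
          ((B ^ (h * e) * B ^ L * (B ^ s) ^ (e - 1)) * x ^ (D * (L + 1) - 1)) := by
          rw [mul_pow]
          ring
      _ = ((Δ : ℝ) ^ e * Δ' * K * K2 ^ (e - 1)) * (B ^ (s * e) * x ^ (D * (L + 1) - 1)) := by
          rw [h1]
      _ ≤ _ := mul_le_mul_of_nonneg_left hBx (by positivity)
  have hlt : ((Δ : ℝ) ^ e * Δ' * K * K2 ^ (e - 1)) * x < 1 := by
    rw [hx, ← div_eq_mul_inv, div_lt_one hB0]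
    exact lt_of_lt_of_le hn3 (pow_le_pow_right₀ hb1 hnn3)
  linarith

end Pool.Agent.H609.JT
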