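import Pool.Agent.H609.GF.Key

/-!
# Lower bounds for the distances of integral combinations of values of power series at `b ^ (-n)`
-/

set_option autoImplicit false

namespace Pool.Agent.H609.JT

open Finset Real
open Pool.Agent.H609.GF (val pow_ge ratio_le)

/-- the coefficients are at most `V C ^ (k + 1)`, their common denominators have geometric growth, and
there are no long gaps -/
structure GV (a : ℕ → ℚ) (C g : ℕ) (V : ℝ) : Prop where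
  size : ∀ k, |(a k : ℝ)| ≤ V * (C : ℝ) ^ (k + 1)
  den : ∀ k, ∃ D : ℕ, 1 ≤ D ∧ D ≤ C ^ (k + 1) ∧ ∀ j ≤ k, ∃ z : ℤ, (D : ℝ) * (a j : ℝ) = z
  gap : ∀ k, ∃ j, k < j ∧ j ≤ k + g ∧ a j ≠ 0

lemma term_le {a : ℕ → ℚ} {C : ℕ} {V : ℝ} (hV : 0 ≤ V)
    (h : ∀ k, |(a k : ℝ)| ≤ V * (C : ℝ) ^ (k + 1)) (b : ℕ)
    (hb : 2 ≤ b) (n k : ℕ) :
    ‖(a k : ℝ) * (((b : ℝ) ^ n)⁻¹) ^ k‖ ≤
      V * ((b : ℝ) ^ C * ((b : ℝ) ^ C * ((b : ℝ) ^ n)⁻¹) ^ k) := by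
  have hb0 : (0 : ℝ) < b := by exact_mod_cast (by omega : 0 < b)
  have h1 := pow_ge b C hb
  rw [norm_mul, Real.norm_eq_abs,
    Real.norm_of_nonneg (by positivity : (0 : ℝ) ≤ (((b : ℝ) ^ n)⁻¹) ^ k),
    mul_pow, ← mul_assoc (((b : ℝ) ^ C)), ← pow_succ', ← mul_assoc]
  refine mul_le_mul_of_nonneg_right ((h k).trans ?_) (by positivity)
  apply mul_le_mul_of_nonneg_left _ hV
  exact pow_le_pow_left₀ (Nat.cast_nonneg _) h1 _

lemma summable_val {a : ℕ → ℚ} {C : ℕ} {V : ℝ} (hV : 0 ≤ V)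
    (h : ∀ k, |(a k : ℝ)| ≤ V * (C : ℝ) ^ (k + 1)) (b : ℕ)
    (hb : 2 ≤ b) (n : ℕ) (hn : C + 1 ≤ n) :
    Summable (fun k : ℕ => (a k : ℝ) * (((b : ℝ) ^ n)⁻¹) ^ k) := by
  have hb0 : (0 : ℝ) < b := by exact_mod_cast (by omega : 0 < b)
  refine Summable.of_norm_bounded
    (g := fun k => V * ((b : ℝ) ^ C * ((b : ℝ) ^ C * ((b : ℝ) ^ n)⁻¹) ^ k))
    ?_ (fun k => term_le hV h b hb n k)
  exact ((summable_geometric_of_lt_one (by positivity)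
    (lt_of_le_of_lt (ratio_le b C n hb hn) (by norm_num))).mul_left _).mul_left _

/-- splitting off a partial sum -/
lemma split_val {a : ℕ → ℚ} {C : ℕ} {V : ℝ} (hV : 0 ≤ V)
    (h : ∀ k, |(a k : ℝ)| ≤ V * (C : ℝ) ^ (k + 1)) (b : ℕ)
    (hb : 2 ≤ b) (n : ℕ) (hn : C + 1 ≤ n) (N : ℕ) :
    ∃ τ : ℝ, val a b n = ∑ k ∈ range N, (a k : ℝ) * (((b : ℝ) ^ n)⁻¹) ^ k + τ ∧
      |τ| ≤ 2 * V * (b : ℝ) ^ C * ((b : ℝ) ^ C * ((b : ℝ) ^ n)⁻¹) ^ N := by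
  have hb0 : (0 : ℝ) < b := by exact_mod_cast (by omega : 0 < b)
  have hs := summable_val hV h b hb n hn
  have hr := ratio_le b C n hb hn
  set r : ℝ := (b : ℝ) ^ C * ((b : ℝ) ^ n)⁻¹ with hrdef
  have hr0 : 0 ≤ r := by positivity
  refine ⟨∑' k, (a (k + N) : ℝ) * (((b : ℝ) ^ n)⁻¹) ^ (k + N), ?_, ?_⟩
  · unfold Pool.Agent.H609.GF.val
    rw [hs.sum_add_tsum_nat_add N]
  · rw [← Real.norm_eq_abs]
    have hg : HasSum (fun k : ℕ => V * ((b : ℝ) ^ C * r ^ N) * r ^ k)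
        (V * ((b : ℝ) ^ C * r ^ N) * (1 - r)⁻¹) :=
      (hasSum_geometric_of_lt_one hr0 (by linarith)).mul_left _
    refine (tsum_of_norm_bounded hg fun k => ?_).trans ?_
    · refine (term_le hV h b hb n (k + N)).trans (le_of_eq ?_)
      rw [pow_add]
      ring
    · have h1 : (1 - r)⁻¹ ≤ 2 := by
        rw [inv_le_comm₀ (by linarith) (by norm_num)]
        linarith
      calc V * ((b : ℝ) ^ C * r ^ N) * (1 - r)⁻¹ ≤ V * ((b : ℝ) ^ C * r ^ N) * 2 :=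
            mul_le_mul_of_nonneg_left h1 (by positivity)
        _ = _ := by ring

/-- **The key inequality.** -/
theorem key {a : ℕ → ℚ} {C g : ℕ} {V : ℝ} (h : GV a C g V) (b : ℕ) (hb : 2 ≤ b) (n K ℓ i : ℕ)
    (hn : 4 * (C * (2 * (K + g) + 3) + 2) ≤ n) (hi : i ≤ n * K) (hi' : n * K ≤ i + n)
    (hV0 : 0 ≤ V) (hV : V ≤ (b : ℝ) ^ ℓ) (hl : 4 * ℓ ≤ n) (p : ℤ) :
    ((b : ℝ) ^ ((g + 2) * n))⁻¹ ≤ |(b : ℝ) ^ i * val a b n - p| := by
  have hb0 : (0 : ℝ) < b := by exact_mod_cast (by omega : 0 < b)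
  have hbR : (2 : ℝ) ≤ b := by exact_mod_cast hb
  have hb1 : (1 : ℝ) ≤ b := by linarith
  obtain ⟨j, hj1, hj2, hj3⟩ := h.gap K
  obtain ⟨D, hD1, hD2, hD3⟩ := h.den j
  have hD0 : (0 : ℝ) < D := by exact_mod_cast hD1
  have hj0 : 1 ≤ j := by omega
  have hg : 1 ≤ g := by omega
  -- exponents
  have hE1 : C * (2 * j + 3) ≤ C * (2 * (K + g) + 3) := Nat.mul_le_mul_left _ (by omega)
  have hE2 : C * (j + 1) + C * (j + 1) ≤ C * (2 * j + 3) := by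
    rw [← Nat.mul_add]
    exact Nat.mul_le_mul_left _ (by omega)
  have hE3 : C ≤ C * (2 * j + 3) := Nat.le_mul_of_pos_right _ (by omega)
  have hnC : C + 1 ≤ n := by omega
  obtain ⟨τ, hτ1, hτ2⟩ := split_val hV0 h.size b hb n hnC (j + 1)
  -- the integral part
  have hint : ∀ k ∈ range j, ∃ z : ℤ,
      (D : ℝ) * (b : ℝ) ^ (n * (j - 1)) * ((a k : ℝ) * (((b : ℝ) ^ n)⁻¹) ^ k) = z := by
    intro k hk
    rw [mem_range] at hk
    obtain ⟨z, hz⟩ := hD3 k hk.le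
    refine ⟨z * (b : ℤ) ^ (n * (j - 1 - k)), ?_⟩
    have e1 : (b : ℝ) ^ (n * (j - 1)) = (b : ℝ) ^ (n * (j - 1 - k)) * ((b : ℝ) ^ n) ^ k := by
      rw [← pow_mul, ← pow_add, ← Nat.mul_add]
      congr 2
      omega
    push_cast
    rw [← hz, e1, inv_pow]
    field_simp
  have hZ : ∃ Z : ℤ, (D : ℝ) * (b : ℝ) ^ (n * (j - 1)) *
      ∑ k ∈ range j, (a k : ℝ) * (((b : ℝ) ^ n)⁻¹) ^ k = Z := by
    rw [mul_sum]
    choose! z hz using hint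
    refine ⟨∑ k ∈ range j, z k, ?_⟩
    push_cast
    exact sum_congr rfl hz
  obtain ⟨Z, hZ⟩ := hZ
  obtain ⟨q, hq⟩ := hD3 j le_rfl
  have hq0 : q ≠ 0 := by
    intro h0
    rw [h0, Int.cast_zero] at hq
    rcases mul_eq_zero.1 hq with h1 | h1
    · exact hD0.ne' h1
    · exact hj3 (by exact_mod_cast h1)
  have hq1 : (1 : ℝ) ≤ |(q : ℝ)| := by
    have : (1 : ℤ) ≤ |q| := Int.one_le_abs hq0
    exact_mod_cast this
  have hCb := pow_ge b C hb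
  have hDb : (D : ℝ) ≤ (b : ℝ) ^ (C * (j + 1)) := by
    have h1 : (D : ℝ) ≤ (C : ℝ) ^ (j + 1) := by exact_mod_cast hD2
    refine h1.trans ?_
    rw [pow_mul]
    exact pow_le_pow_left₀ (Nat.cast_nonneg _) hCb _
  have haj : |(a j : ℝ)| ≤ (b : ℝ) ^ ℓ * (b : ℝ) ^ (C * (j + 1)) := by
    refine (h.size j).trans ?_
    rw [pow_mul]
    exact mul_le_mul hV (pow_le_pow_left₀ (Nat.cast_nonneg _) hCb _) (by positivity)
      (by positivity)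
  have hq2 : |(q : ℝ)| ≤ (b : ℝ) ^ (ℓ + (C * (j + 1) + C * (j + 1))) := by
    rw [← hq, abs_mul, abs_of_pos hD0, pow_add, pow_add]
    calc (D : ℝ) * |(a j : ℝ)| ≤ (b : ℝ) ^ (C * (j + 1)) * ((b : ℝ) ^ ℓ * (b : ℝ) ^ (C * (j + 1))) :=
          mul_le_mul hDb haj (abs_nonneg _) (by positivity)
      _ = _ := by ring
  set B : ℝ := (b : ℝ) ^ n with hB
  have hBpos : 0 < B := by positivity
  have hB2 : 2 ≤ B := by
    calc (2 : ℝ) ≤ b := hbR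
      _ = (b : ℝ) ^ 1 := (pow_one _).symm
      _ ≤ (b : ℝ) ^ n := pow_le_pow_right₀ hb1 (by omega)
  set P : ℝ := (b : ℝ) ^ (n * (j - 1)) with hP
  have hPpos : 0 < P := by positivity
  have hPB : P * (B⁻¹) ^ j = B⁻¹ := by
    rw [hP, hB, pow_mul, inv_pow]
    have e1 : ((b : ℝ) ^ n) ^ j = ((b : ℝ) ^ n) ^ (j - 1) * (b : ℝ) ^ n := by
      rw [← pow_succ]
      congr 1
      omega
    rw [e1]
    have := pow_pos hb0 n
    field_simp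
  -- the rest
  set v : ℝ := (q : ℝ) * B⁻¹ + D * P * τ with hv
  have hX : (D : ℝ) * P * val a b n = Z + v := by
    rw [hτ1, sum_range_succ, mul_add, mul_add, hZ, hv]
    have e1 : (D : ℝ) * P * ((a j : ℝ) * (B⁻¹) ^ j) = q * B⁻¹ := by
      calc (D : ℝ) * P * ((a j : ℝ) * (B⁻¹) ^ j) = (D * a j) * (P * (B⁻¹) ^ j) := by ring
        _ = _ := by rw [hPB, hq]
    rw [e1]
    ring
  have hτ3 : |(D : ℝ) * P * τ| ≤ 1 / 2 * B⁻¹ := by
    rw [abs_mul, abs_of_pos (by positivity)]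
    have e1 : P * ((b : ℝ) ^ C * B⁻¹) ^ (j + 1) = (b : ℝ) ^ (C * (j + 1)) * (B⁻¹ * B⁻¹) := by
      rw [mul_pow, ← pow_mul, pow_succ B⁻¹ j]
      calc P * ((b : ℝ) ^ (C * (j + 1)) * (B⁻¹ ^ j * B⁻¹)) =
          (b : ℝ) ^ (C * (j + 1)) * ((P * B⁻¹ ^ j) * B⁻¹) := by ring
        _ = _ := by rw [hPB]
    have e2 : 2 * (b : ℝ) ^ ℓ * (b : ℝ) ^ (C * (j + 1)) * (b : ℝ) ^ C * (b : ℝ) ^ (C * (j + 1)) * B⁻¹ ≤
        1 / 2 := by
      rw [← div_eq_mul_inv, div_le_iff₀ hBpos]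
      have e3 : (b : ℝ) ^ (2 + (ℓ + C * (j + 1) + C + C * (j + 1))) ≤ B :=
        pow_le_pow_right₀ hb1 (by nlinarith)
      have e4 : (b : ℝ) ^ (2 + (ℓ + C * (j + 1) + C + C * (j + 1))) =
          (b : ℝ) ^ 2 * ((b : ℝ) ^ ℓ * (b : ℝ) ^ (C * (j + 1)) * (b : ℝ) ^ C *
            (b : ℝ) ^ (C * (j + 1))) := by
        rw [pow_add, pow_add _ _ (C * (j + 1)), pow_add _ (ℓ + C * (j + 1)) C,
          pow_add _ ℓ (C * (j + 1))]
      rw [e4] at e3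
      have e5 : (4 : ℝ) ≤ (b : ℝ) ^ 2 := by nlinarith
      have e6 : 0 ≤ (b : ℝ) ^ ℓ * (b : ℝ) ^ (C * (j + 1)) * (b : ℝ) ^ C *
        (b : ℝ) ^ (C * (j + 1)) := by positivity
      nlinarith
    calc (D : ℝ) * P * |τ| ≤ D * P * (2 * V * (b : ℝ) ^ C * ((b : ℝ) ^ C * B⁻¹) ^ (j + 1)) :=
          mul_le_mul_of_nonneg_left hτ2 (by positivity)
      _ = D * (2 * V * (b : ℝ) ^ C * (P * ((b : ℝ) ^ C * B⁻¹) ^ (j + 1))) := by ring
      _ ≤ (b : ℝ) ^ (C * (j + 1)) *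
            (2 * (b : ℝ) ^ ℓ * (b : ℝ) ^ C * (P * ((b : ℝ) ^ C * B⁻¹) ^ (j + 1))) := by
          gcongr
      _ = (2 * (b : ℝ) ^ ℓ * (b : ℝ) ^ (C * (j + 1)) * (b : ℝ) ^ C * (b : ℝ) ^ (C * (j + 1)) * B⁻¹) *
            B⁻¹ := by
          rw [e1]
          ring
      _ ≤ _ := mul_le_mul_of_nonneg_right e2 (by positivity)
  have hBinv : 0 < B⁻¹ := by positivity
  have hqB : |(q : ℝ) * B⁻¹| = |(q : ℝ)| * B⁻¹ := by rw [abs_mul, abs_of_pos hBinv]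
  have hv1 : 1 / 2 * B⁻¹ ≤ |v| := by
    have h1 : |(q : ℝ) * B⁻¹| - |(D : ℝ) * P * τ| ≤ |v| := by
      have h2 := abs_sub_abs_le_abs_sub ((q : ℝ) * B⁻¹) (-(D * P * τ))
      rw [abs_neg, sub_neg_eq_add] at h2
      exact h2
    rw [hqB] at h1
    nlinarith
  have hv2 : |v| ≤ 1 / 2 := by
    have h1 : |v| ≤ |(q : ℝ)| * B⁻¹ + 1 / 2 * B⁻¹ := by
      rw [← hqB]
      exact (abs_add_le _ _).trans (by linarith)
    have h2 : |v| ≤ 2 * (b : ℝ) ^ (ℓ + (C * (j + 1) + C * (j + 1))) * B⁻¹ := by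
      have h3 : (1 : ℝ) ≤ (b : ℝ) ^ (ℓ + (C * (j + 1) + C * (j + 1))) := one_le_pow₀ hb1
      nlinarith
    refine h2.trans ?_
    rw [← div_eq_mul_inv, div_le_iff₀ hBpos]
    have e3 : (b : ℝ) ^ (2 + (ℓ + (C * (j + 1) + C * (j + 1)))) ≤ B :=
      pow_le_pow_right₀ hb1 (by omega)
    rw [pow_add _ 2] at e3
    have e5 : (4 : ℝ) ≤ (b : ℝ) ^ 2 := by nlinarith
    have e6 : 0 ≤ (b : ℝ) ^ (ℓ + (C * (j + 1) + C * (j + 1))) := by positivity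
    nlinarith
  have hdist : ∀ p' : ℤ, 1 / 2 * B⁻¹ ≤ |(Z + v : ℝ) - p'| := by
    intro p'
    by_cases hp' : p' = Z
    · rw [hp']
      rwa [show (Z : ℝ) + v - Z = v by ring]
    · have h1 : (1 : ℝ) ≤ |((Z - p' : ℤ) : ℝ)| := by
        have h2 : (1 : ℤ) ≤ |Z - p'| := Int.one_le_abs (sub_ne_zero.2 fun h3 => hp' h3.symm)
        exact_mod_cast h2
      have h2 : |((Z - p' : ℤ) : ℝ)| - |v| ≤ |(Z + v : ℝ) - p'| := by
        have h3 := abs_sub_abs_le_abs_sub ((Z - p' : ℤ) : ℝ) (-v)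
        rw [abs_neg, sub_neg_eq_add] at h3
        refine h3.trans (le_of_eq ?_)
        congr 1
        push_cast
        ring
      have h3 : B⁻¹ ≤ 1 := inv_le_one_of_one_le₀ (by linarith)
      linarith
  -- conclusion
  have hji : i ≤ n * (j - 1) := hi.trans (Nat.mul_le_mul_left _ (by omega))
  have hjn : n * (j - 1) - i ≤ n * g := by
    have h1 : n * (j - 1) ≤ n * (K + (g - 1)) := Nat.mul_le_mul_left _ (by omega)
    rw [Nat.mul_add] at h1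
    have h2 : n * (g - 1) + n = n * g := by
      rw [← Nat.mul_succ]
      congr 1
      omega
    omega
  set E : ℕ := n * (j - 1) - i with hE
  have hPE : P = (b : ℝ) ^ E * (b : ℝ) ^ i := by
    rw [hP, ← pow_add]
    congr 1
    omega
  have h1 := hdist (D * (b : ℤ) ^ E * p)
  have e1 : (Z + v : ℝ) - ((D * (b : ℤ) ^ E * p : ℤ) : ℝ) =
      D * (b : ℝ) ^ E * ((b : ℝ) ^ i * val a b n - p) := by
    rw [← hX, hPE]
    push_cast
    ring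
  rw [e1, abs_mul, abs_of_pos (by positivity : (0 : ℝ) < D * (b : ℝ) ^ E)] at h1
  have h2 : 2 * (D : ℝ) * (b : ℝ) ^ E * B ≤ (b : ℝ) ^ ((g + 2) * n) := by
    calc 2 * (D : ℝ) * (b : ℝ) ^ E * B ≤
        (b : ℝ) * (b : ℝ) ^ (C * (j + 1)) * (b : ℝ) ^ (n * g) * (b : ℝ) ^ n := by
          have h3 : (b : ℝ) ^ E ≤ (b : ℝ) ^ (n * g) := pow_le_pow_right₀ hb1 hjn
          gcongr
      _ = (b : ℝ) ^ (1 + C * (j + 1) + n * g + n) := by
          rw [pow_add, pow_add, pow_add, pow_one]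
      _ ≤ _ := by
          refine pow_le_pow_right₀ hb1 ?_
          have : (g + 2) * n = n * g + n + n := by ring
          omega
  rw [inv_le_iff_one_le_mul₀ (by positivity)]
  have h3 : 1 ≤ 2 * (D : ℝ) * (b : ℝ) ^ E * B *
      |(b : ℝ) ^ i * val a b n - p| := by
    have h4 := mul_le_mul_of_nonneg_left h1 (by positivity : (0 : ℝ) ≤ 2 * B)
    have e2 : 2 * B * (1 / 2 * B⁻¹) = 1 := by field_simp
    rw [e2] at h4
    linarith
  refine h3.trans ?_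
  rw [mul_comm |_|]
  exact mul_le_mul_of_nonneg_right h2 (abs_nonneg _)

end Pool.Agent.H609.JT
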