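import Mathlib

/-!
# A lower bound from the norm
-/

set_option autoImplicit false

namespace Pool.Agent.H609.JT

open Finset Polynomial IntermediateField

/-- **The lower bound of Liouville.** -/
theorem norm_lower {t : ℝ} (hint : IsIntegral ℚ t) (C₀ : ℝ) (hC : 1 ≤ C₀)
    (hroot : ∀ z : ℂ, aeval z (minpoly ℚ t) = 0 → ‖z‖ ≤ C₀) (a : ℕ)
    (hat : IsIntegral ℤ ((a : ℝ) * t)) (D : ℕ) (Z : ℕ → ℤ) (W : ℝ) (hW0 : 0 ≤ W)
    (hW : ∀ i < D, |(Z i : ℝ)| ≤ W)
    (h0 : (a : ℝ) ^ (D - 1) * ∑ i ∈ range D, (Z i : ℝ) * t ^ i ≠ 0) :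
    1 ≤ (a : ℝ) ^ (D - 1) * |∑ i ∈ range D, (Z i : ℝ) * t ^ i| *
      ((a : ℝ) ^ (D - 1) * (D * W * C₀ ^ D)) ^ ((minpoly ℚ t).natDegree - 1) := by
  classical
  set F : IntermediateField ℚ ℝ := ℚ⟮t⟯ with hF
  have hfin : FiniteDimensional ℚ F := adjoin.finiteDimensional hint
  set g : F := AdjoinSimple.gen ℚ t with hg
  have hgt : (g : ℝ) = t := AdjoinSimple.coe_gen ℚ t
  set β : F := (a : F) ^ (D - 1) * ∑ i ∈ range D, (Z i : F) * g ^ i with hβ
  have hβR : (β : ℝ) = (a : ℝ) ^ (D - 1) * ∑ i ∈ range D, (Z i : ℝ) * t ^ i := by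
    rw [hβ]
    push_cast
    rw [hgt]
  have hβ0 : β ≠ 0 := by
    intro h1
    apply h0
    rw [← hβR, h1]
    rfl
  -- integrality
  have hag : IsIntegral ℤ ((a : F) * g) := by
    have h1 : IsIntegral ℤ (algebraMap F ℝ ((a : F) * g)) := by
      have h2 : algebraMap F ℝ ((a : F) * g) = (a : ℝ) * t := by
        rw [map_mul, map_natCast]
        congr 1
      rw [h2]
      exact hat
    exact (isIntegral_algebraMap_iff (algebraMap F ℝ).injective).1 h1
  have hβint : IsIntegral ℤ β := by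
    have h1 : β = ∑ i ∈ range D, (Z i : F) * (a : F) ^ (D - 1 - i) * ((a : F) * g) ^ i := by
      rw [hβ, mul_sum]
      refine sum_congr rfl fun i hi => ?_
      rw [mem_range] at hi
      have h2 : (a : F) ^ (D - 1) = (a : F) ^ (D - 1 - i) * (a : F) ^ i := by
        rw [← pow_add]
        congr 1
        omega
      rw [h2, mul_pow]
      ring
    rw [h1]
    refine IsIntegral.sum _ fun i _ => ?_
    refine IsIntegral.mul (IsIntegral.mul ?_ ?_) (hag.pow i)
    · exact isIntegral_algebraMap (R := ℤ) (A := F) (x := Z i)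
    · exact IsIntegral.pow (by
        have := isIntegral_algebraMap (R := ℤ) (A := F) (x := (a : ℤ))
        simpa using this) _
  obtain ⟨m, hm⟩ := IsIntegrallyClosed.isIntegral_iff.1 (Algebra.isIntegral_norm ℚ hβint)
  have hm0 : m ≠ 0 := by
    intro h1
    rw [h1, map_zero] at hm
    exact (Algebra.norm_ne_zero_iff.2 hβ0) hm.symm
  have hm1 : (1 : ℝ) ≤ |(m : ℝ)| := by
    have := Int.one_le_abs hm0
    exact_mod_cast this
  -- the product over the embeddings
  have hprod := Algebra.norm_eq_prod_embeddings ℚ ℂ β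
  have hnorm : |(m : ℝ)| = ∏ σ : F →ₐ[ℚ] ℂ, ‖σ β‖ := by
    rw [← norm_prod, ← hprod, ← hm]
    simp
  have hcard : Fintype.card (F →ₐ[ℚ] ℂ) = (minpoly ℚ t).natDegree := by
    rw [AlgHom.card, adjoin.finrank hint]
  have hσ : ∀ σ : F →ₐ[ℚ] ℂ, ‖σ β‖ ≤ (a : ℝ) ^ (D - 1) * (D * W * C₀ ^ D) := by
    intro σ
    have h1 : ‖σ g‖ ≤ C₀ := by
      apply hroot
      have h2 : aeval g (minpoly ℚ t) = 0 := by
        have h3 : minpoly ℚ g = minpoly ℚ t := minpoly_gen ℚ t
        rw [← h3]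
        exact minpoly.aeval ℚ g
      have h4 := congrArg σ h2
      rw [map_zero, ← Polynomial.aeval_algHom_apply] at h4
      exact h4
    have h2 : σ β = (a : ℂ) ^ (D - 1) * ∑ i ∈ range D, (Z i : ℂ) * (σ g) ^ i := by
      rw [hβ]
      simp only [map_mul, map_pow, map_natCast, map_sum, map_intCast]
    rw [h2, norm_mul, norm_pow, Complex.norm_natCast]
    apply mul_le_mul_of_nonneg_left _ (by positivity)
    refine (norm_sum_le _ _).trans ?_
    calc ∑ i ∈ range D, ‖(Z i : ℂ) * (σ g) ^ i‖ ≤ ∑ _i ∈ range D, W * C₀ ^ D := by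
          refine sum_le_sum fun i hi => ?_
          rw [mem_range] at hi
          rw [norm_mul, norm_pow]
          have h3 : ‖(Z i : ℂ)‖ ≤ W := by
            have := hW i hi
            rwa [Complex.norm_intCast]
          refine mul_le_mul h3 ?_ (by positivity) hW0
          calc ‖σ g‖ ^ i ≤ C₀ ^ i := pow_le_pow_left₀ (norm_nonneg _) h1 i
            _ ≤ C₀ ^ D := pow_le_pow_right₀ hC hi.le
      _ = _ := by
          rw [sum_const, card_range, nsmul_eq_mul]
          ring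
  -- the identical embedding
  let σ₀ : F →ₐ[ℚ] ℂ := (Complex.ofRealAm.restrictScalars ℚ).comp F.val
  have hσ₀ : ‖σ₀ β‖ = (a : ℝ) ^ (D - 1) * |∑ i ∈ range D, (Z i : ℝ) * t ^ i| := by
    have h1 : σ₀ β = ((β : ℝ) : ℂ) := rfl
    rw [h1, Complex.norm_real, Real.norm_eq_abs, hβR, abs_mul, abs_of_nonneg (by positivity)]
  rw [hnorm, ← Finset.mul_prod_erase univ _ (mem_univ σ₀), hσ₀] at hm1
  refine hm1.trans ?_
  apply mul_le_mul_of_nonneg_left _ (by positivity)
  calc ∏ σ ∈ univ.erase σ₀, ‖σ β‖ ≤ ∏ _σ ∈ univ.erase σ₀, ((a : ℝ) ^ (D - 1) * (D * W * C₀ ^ D)) :=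
        Finset.prod_le_prod (fun _ _ => norm_nonneg _) fun σ _ => hσ σ
    _ = _ := by
        rw [Finset.prod_const, Finset.card_erase_of_mem (mem_univ _), Finset.card_univ, hcard]

end Pool.Agent.H609.JT
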