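import Pool.Agent.H609.GF.Ode
import Pool.Agent.H609.JT.Prim

/-!
# Finitely many algebraic elements satisfy a common linear differential equation
-/

set_option autoImplicit false

namespace Pool.Agent.H609.JT

open Finset Polynomial
open Pool.Agent.H609.GF (Sat natDegree_pos)

variable {R S : Type*} [CommRing R] [IsDomain R] [CharZero R] [CommRing S] [IsDomain S]
  [Algebra R S] [FaithfulSMul R S]

/-- the saturated module is stable under derivations -/
theorem stab (D : Derivation ℤ S S) (hD : ∀ r : R, ∃ r' : R, D (algebraMap R S r) = algebraMap R S r')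
    {f : S} (hf : IsAlgebraic R f) :
    ∃ P : R[X], P ≠ 0 ∧ aeval f P = 0 ∧
      ∀ z : S, Sat R f P.natDegree z → Sat R f P.natDegree (D z) := by
  classical
  -- a polynomial of least degree
  have hex : ∃ n : ℕ, ∃ P : R[X], P ≠ 0 ∧ aeval f P = 0 ∧ P.natDegree = n := by
    obtain ⟨P, hP, hPf⟩ := hf
    exact ⟨_, P, hP, hPf, rfl⟩
  obtain ⟨P, hP, hPf, hPd⟩ := Nat.find_spec hex
  refine ⟨P, hP, hPf, ?_⟩
  have hmin : ∀ Q : R[X], Q ≠ 0 → aeval f Q = 0 → P.natDegree ≤ Q.natDegree := by
    intro Q hQ hQf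
    rw [hPd]
    exact Nat.find_min' hex ⟨Q, hQ, hQf, rfl⟩
  have hpos := natDegree_pos hP hPf
  have hder : aeval f (derivative P) ≠ 0 := by
    intro h0
    have h1 : derivative P ≠ 0 := by
      intro h2
      have := Polynomial.derivative_eq_zero.1 h2
      omega
    have h2 := hmin _ h1 h0
    have h3 := natDegree_derivative_lt (p := P) (by omega)
    omega
  set d := P.natDegree with hd
  -- the derivative of a value
  have hDr : ∀ (r : R) (x : S), D (r • x) = (D (algebraMap R S r)) * x + r • D x := by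
    intro r x
    rw [Algebra.smul_def, D.leibniz, smul_eq_mul, smul_eq_mul, Algebra.smul_def]
    ring
  have hval : ∀ Q : R[X], ∃ z : S, Sat R f d z ∧
      D (aeval f Q) = z + aeval f (derivative Q) * D f := by
    intro Q
    induction Q using Polynomial.induction_on' with
    | add p q hp hq =>
      obtain ⟨x, hx, hx'⟩ := hp
      obtain ⟨y, hy, hy'⟩ := hq
      refine ⟨x + y, hx.add hy, ?_⟩
      rw [map_add, map_add, hx', hy', derivative_add, map_add]
      ring
    | monomial n r =>
      obtain ⟨r', hr'⟩ := hD r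
      refine ⟨r' • f ^ n, ?_, ?_⟩
      · have := ((Sat.one hP hPf).pow_mul hP hPf n).smul r'
        rwa [mul_one] at this
      · rw [aeval_monomial, D.leibniz, derivative_monomial, aeval_monomial, hr', D.leibniz_pow,
          Algebra.smul_def r' (f ^ n)]
        simp only [smul_eq_mul, nsmul_eq_mul, map_mul, map_natCast]
        ring
  -- the derivative of `f`
  have hDf : Sat R f d (D f) := by
    obtain ⟨z, hz, hz'⟩ := hval P
    rw [hPf, map_zero] at hz'
    refine Sat.div hP hPf hder (Sat.aeval hP hPf _) ?_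
    have h1 : aeval f (derivative P) * D f = (-1 : R) • z := by
      rw [neg_smul, one_smul]
      linear_combination -hz'
    rw [h1]
    exact hz.smul _
  -- stability
  rintro z ⟨r, c, hr, h⟩
  apply Sat.of_smul hr
  obtain ⟨r', hr'⟩ := hD r
  have h1 : r • D z = D (∑ i ∈ range d, c i • f ^ i) + (-r') • z := by
    rw [← h, hDr, hr', neg_smul, Algebra.smul_def r' z]
    ring
  rw [h1]
  refine Sat.add ?_ (Sat.smul ⟨r, c, hr, h⟩ _)
  have h2 : ∑ i ∈ range d, c i • f ^ i = aeval f (∑ i ∈ range d, monomial i (c i)) := by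
    rw [map_sum]
    refine sum_congr rfl fun i _ => ?_
    rw [aeval_monomial, Algebra.smul_def]
  rw [h2]
  obtain ⟨y, hy, hy'⟩ := hval (∑ i ∈ range d, monomial i (c i))
  rw [hy']
  exact hy.add ((Sat.aeval hP hPf _).mul hP hPf hDf)

omit [CharZero R] [IsDomain S] [FaithfulSMul R S] in
/-- more tuples than the rank are dependent -/
lemma dep_tuple {f : S} {n d : ℕ} {z : ℕ → Fin d → S} (hz : ∀ i j, Sat R f n (z i j)) :
    ∃ c : ℕ → R, (∃ i ≤ d * n, c i ≠ 0) ∧
      ∀ j, ∑ i ∈ range (d * n + 1), c i • z i j = 0 := by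
  classical
  choose r c hr hc using hz
  let r' : ℕ → R := fun i => ∏ j, r i j
  have hr' : ∀ i, r' i ≠ 0 := fun i => Finset.prod_ne_zero_iff.2 fun j _ => hr i j
  let v : Fin (d * n + 1) → (Fin d × Fin n → R) := fun i p =>
    (∏ j' ∈ univ.erase p.1, r i j') * c i p.1 p.2
  have hv : ∀ (i : Fin (d * n + 1)) (j : Fin d), r' i • z i j =
      ∑ l : Fin n, v i (j, l) • f ^ (l : ℕ) := by
    intro i j
    have h1 : r' i = (∏ j' ∈ univ.erase j, r i j') * r i j :=
      (Finset.prod_erase_mul _ _ (mem_univ j)).symm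
    rw [h1, mul_smul, hc, Finset.sum_range, smul_sum]
    exact sum_congr rfl fun l _ => by rw [smul_smul]
  have hnl : ¬ LinearIndependent R v := by
    intro h
    have h1 := h.fintype_card_le_finrank
    rw [Fintype.card_fin, Module.finrank_fintype_fun_eq_card, Fintype.card_prod, Fintype.card_fin,
      Fintype.card_fin] at h1
    omega
  obtain ⟨g, hg, i₀, hi₀⟩ := Fintype.not_linearIndependent_iff.1 hnl
  refine ⟨fun i => if h : i < d * n + 1 then g ⟨i, h⟩ * r' i else 0, ⟨i₀, by omega, ?_⟩,
    fun j => ?_⟩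
  · simp only [i₀.2, dif_pos]
    exact mul_ne_zero hi₀ (hr' _)
  · rw [Finset.sum_range]
    have h1 : ∀ i : Fin (d * n + 1),
        (if h : (i : ℕ) < d * n + 1 then g ⟨i, h⟩ * r' i else 0) • z i j =
        ∑ l : Fin n, (g i * v i (j, l)) • f ^ (l : ℕ) := by
      intro i
      rw [dif_pos i.2, mul_smul]
      have h2 := hv i j
      simp only [Fin.eta] at h2 ⊢
      rw [h2, smul_sum]
      exact sum_congr rfl fun l _ => by rw [smul_smul]
    rw [sum_congr rfl fun i _ => h1 i, sum_comm]
    refine sum_eq_zero fun l _ => ?_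
    rw [← sum_smul]
    have h2 := congrFun hg (j, l)
    rw [Finset.sum_apply, Pi.zero_apply] at h2
    have h3 : ∑ i, g i * v i (j, l) = 0 := by
      rw [← h2]
      exact sum_congr rfl fun i _ => rfl
    rw [h3, zero_smul]

/-- **A common linear differential equation.** -/
theorem ode_tuple {R S : Type} [CommRing R] [IsDomain R] [CharZero R] [CommRing S] [IsDomain S]
    [IsIntegrallyClosed S] [Algebra R S] [FaithfulSMul R S] (D : Derivation ℤ S S)
    (hD : ∀ r : R, ∃ r' : R, D (algebraMap R S r) = algebraMap R S r')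
    {d : ℕ} (f : Fin d → S) (hf : ∀ j, IsAlgebraic R (f j)) :
    ∃ (N : ℕ) (c : ℕ → R), (∃ i ≤ N, c i ≠ 0) ∧
      ∀ j, ∑ i ∈ range (N + 1), c i • (D^[i]) (f j) = 0 := by
  classical
  obtain ⟨θ, hθ, h⟩ := prim f hf
  have hθa : IsAlgebraic R θ := hθ.isAlgebraic
  obtain ⟨P, hP, hPθ, hstab⟩ := stab D hD hθa
  have hit : ∀ (i : ℕ) (j : Fin d), Sat R θ P.natDegree ((D^[i]) (f j)) := by
    intro i
    induction i with
    | zero =>
      intro j
      obtain ⟨r, Q, hr, hQ⟩ := h j
      rw [Function.iterate_zero, id]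
      apply Sat.of_smul hr
      rw [hQ]
      exact Sat.aeval hP hPθ Q
    | succ n ih =>
      intro j
      rw [Function.iterate_succ_apply']
      exact hstab _ (ih j)
  obtain ⟨c, hc, hc'⟩ := dep_tuple hit
  exact ⟨_, c, hc, hc'⟩

end Pool.Agent.H609.JT
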