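import Pool.Agent.H609.JT.Ode2
import Pool.Agent.H609.JT.Key
import Pool.Agent.H609.GF.Gap

/-!
# A common recurrence for the coefficients of several algebraic power series, and uniform bounds for
the gaps of their combinations
-/

set_option autoImplicit false

namespace Pool.Agent.H609.JT

open Finset PowerSeries
open Pool.Agent.H609.GF (theta theta_poly coeff_theta_iter SG_of_alg SG Gr)

variable {d : ℕ}

/-- a common linear recurrence for the coefficients -/
lemma recur_tuple (f : Fin d → ℚ⟦X⟧) (hf : ∀ j, IsAlgebraic (Polynomial ℚ) (f j)) :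
    ∃ J N₀ : ℕ, ∀ u : Fin d → ℚ, ∀ N, N₀ < N →
      (∀ i, i < N → N ≤ i + J → ∑ j, u j * coeff i (f j) = 0) → ∑ j, u j * coeff N (f j) = 0 := by
  classical
  obtain ⟨d', c, ⟨i1, hi1, hci1⟩, hc⟩ := ode_tuple theta theta_poly f hf
  -- the polynomials in the index
  let q : ℕ → Polynomial ℚ := fun j =>
    ∑ i ∈ range (d' + 1), Polynomial.C ((c i).coeff j) * Polynomial.X ^ i
  have hq : ∀ j i, i ≤ d' → (q j).coeff i = (c i).coeff j := by
    intro j i hi
    simp only [q, Polynomial.finsetSum_coeff, Polynomial.coeff_C_mul, Polynomial.coeff_X_pow]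
    rw [Finset.sum_eq_single_of_mem i (mem_range.2 (by omega))]
    · simp
    · intro i' _ hi'
      rw [if_neg (Ne.symm hi'), mul_zero]
  have hex : ∃ j, q j ≠ 0 := by
    refine ⟨(c i1).natDegree, fun h0 => ?_⟩
    have h1 := hq (c i1).natDegree i1 hi1
    rw [h0, Polynomial.coeff_zero] at h1
    exact hci1 (Polynomial.leadingCoeff_eq_zero.1 h1.symm)
  set j0 := Nat.find hex with hj0
  have hq0 : q j0 ≠ 0 := Nat.find_spec hex
  have hlt : ∀ j < j0, q j = 0 := fun j hj => by
    by_contra h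
    exact Nat.find_min hex hj h
  set J : ℕ := (range (d' + 1)).sup fun i => (c i).natDegree with hJ
  have hbig : ∀ j, J < j → q j = 0 := by
    intro j hj
    simp only [q]
    refine sum_eq_zero fun i hi => ?_
    have h1 : (c i).natDegree ≤ J := Finset.le_sup (f := fun i => (c i).natDegree) hi
    rw [Polynomial.coeff_eq_zero_of_natDegree_lt (by omega), Polynomial.C_0, zero_mul]
  -- the relation
  have hrel : ∀ (l : Fin d) (n : ℕ),
      ∑ p ∈ antidiagonal n, (q p.1).eval (p.2 : ℚ) * coeff p.2 (f l) = 0 := by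
    intro l n
    have h1 := congrArg (coeff n) (hc l)
    rw [map_zero, map_sum] at h1
    rw [← h1]
    have h2 : ∀ i ∈ range (d' + 1), coeff n (c i • (theta^[i]) (f l)) =
        ∑ p ∈ antidiagonal n, (c i).coeff p.1 * ((p.2 : ℚ) ^ i * coeff p.2 (f l)) := by
      intro i _
      have h3 : c i • (theta^[i]) (f l) = (c i : ℚ⟦X⟧) * (theta^[i]) (f l) := by
        rw [Algebra.smul_def, PowerSeries.algebraMap_apply', Algebra.algebraMap_self,
          PowerSeries.map_id]
        rfl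
      rw [h3, coeff_mul]
      refine sum_congr rfl fun p _ => ?_
      rw [Polynomial.coeff_coe, coeff_theta_iter]
    rw [sum_congr rfl h2, sum_comm]
    refine sum_congr rfl fun p _ => ?_
    simp only [q, Polynomial.eval_finsetSum, Polynomial.eval_mul, Polynomial.eval_C,
      Polynomial.eval_pow, Polynomial.eval_X]
    rw [sum_mul]
    refine sum_congr rfl fun i _ => ?_
    ring
  -- the roots
  obtain ⟨N₀, hN₀⟩ : ∃ N₀ : ℕ, ∀ N : ℕ, N₀ < N → (q j0).eval (N : ℚ) ≠ 0 := by
    have hfin : {N : ℕ | (q j0).eval (N : ℚ) = 0}.Finite := by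
      have h1 := Polynomial.finite_setOf_isRoot hq0
      have h2 := h1.preimage (f := fun N : ℕ => (N : ℚ)) (Nat.cast_injective.injOn)
      exact h2
    obtain ⟨N₀, hN₀⟩ := hfin.bddAbove
    refine ⟨N₀, fun N hN h0 => ?_⟩
    have := hN₀ (show N ∈ {N : ℕ | (q j0).eval (N : ℚ) = 0} from h0)
    omega
  refine ⟨J, N₀, fun u N hN hz => ?_⟩
  have h1 : ∑ p ∈ antidiagonal (j0 + N),
      (q p.1).eval (p.2 : ℚ) * ∑ l, u l * coeff p.2 (f l) = 0 := by
    have h2 : ∀ p ∈ antidiagonal (j0 + N),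
        (q p.1).eval (p.2 : ℚ) * ∑ l, u l * coeff p.2 (f l) =
        ∑ l, u l * ((q p.1).eval (p.2 : ℚ) * coeff p.2 (f l)) := by
      intro p _
      rw [mul_sum]
      exact sum_congr rfl fun l _ => by ring
    rw [sum_congr rfl h2, sum_comm]
    refine sum_eq_zero fun l _ => ?_
    rw [← mul_sum, hrel, mul_zero]
  rw [sum_eq_single_of_mem (j0, N) (by simp)] at h1
  · exact (mul_eq_zero.1 h1).resolve_left (hN₀ N hN)
  · rintro ⟨j, i⟩ hp hne
    rw [HasAntidiagonal.mem_antidiagonal] at hp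
    simp only at hp ⊢
    rcases lt_trichotomy j j0 with h2 | h2 | h2
    · rw [hlt j h2, Polynomial.eval_zero, zero_mul]
    · exfalso
      subst h2
      apply hne
      have : i = N := by omega
      rw [this]
    · by_cases h3 : J < j
      · rw [hbig j h3, Polynomial.eval_zero, zero_mul]
      · rw [hz i (by omega) (by omega), mul_zero]

/-- **The gaps of the combinations are uniformly bounded.** -/
theorem gap_tuple (f : Fin d → ℚ⟦X⟧) (hf : ∀ j, IsAlgebraic (Polynomial ℚ) (f j))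
    (hnp : ∀ u : Fin d → ℚ, (∃ P : Polynomial ℚ, (P : ℚ⟦X⟧) = ∑ j, C (u j) * f j) → u = 0) :
    ∃ g : ℕ, ∀ u : Fin d → ℚ, u ≠ 0 →
      ∀ k, ∃ i, k < i ∧ i ≤ k + g ∧ ∑ j, u j * coeff i (f j) ≠ 0 := by
  obtain ⟨J, N₀, h⟩ := recur_tuple f hf
  have key : ∀ u : Fin d → ℚ, u ≠ 0 → ∀ k, N₀ ≤ k →
      ∃ i, k < i ∧ i ≤ k + (J + 1) ∧ ∑ j, u j * coeff i (f j) ≠ 0 := by
    intro u hu k hk
    by_contra hcon
    push Not at hcon
    apply hu
    apply hnp
    have hall : ∀ i, k < i → ∑ j, u j * coeff i (f j) = 0 := by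
      intro i
      induction i using Nat.strong_induction_on with
      | _ i ih =>
        intro hi
        by_cases h1 : i ≤ k + (J + 1)
        · exact hcon i hi h1
        · exact h u i (by omega) fun i' hi' hi'' => ih i' hi' (by omega)
    refine ⟨trunc (k + 1) (∑ j, C (u j) * f j), ?_⟩
    ext i
    rw [Polynomial.coeff_coe, coeff_trunc]
    split_ifs with h1
    · rfl
    · rw [map_sum]
      simp only [coeff_C_mul]
      exact (hall i (by omega)).symm
  refine ⟨N₀ + (J + 1), fun u hu k => ?_⟩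
  obtain ⟨j, hj1, hj2, hj3⟩ := key u hu (max k N₀) (le_max_right _ _)
  exact ⟨j, lt_of_le_of_lt (le_max_left _ _) hj1, by omega, hj3⟩

/-- common growth -/
lemma growth_tuple (f : Fin d → ℚ⟦X⟧) (hf : ∀ j, IsAlgebraic (Polynomial ℚ) (f j)) :
    ∃ C : ℕ, 1 ≤ C ∧ ∀ j, Gr C (f j) := by
  classical
  have h : ∀ j, ∃ C : ℕ, 1 ≤ C ∧ Gr C (f j) := fun j => SG_of_alg (hf j)
  choose C hC h using h
  refine ⟨∏ j, C j, Nat.pos_of_ne_zero (prod_ne_zero_iff.2 fun j _ => by have := hC j; omega),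
    fun j => ?_⟩
  exact Gr.of_dvd (Nat.pos_of_ne_zero (prod_ne_zero_iff.2 fun j _ => by have := hC j; omega))
    (dvd_prod_of_mem C (mem_univ j)) (h j)

/-- the properties of the integral combinations -/
theorem gv_tuple (f : Fin d → ℚ⟦X⟧) (hf : ∀ j, IsAlgebraic (Polynomial ℚ) (f j))
    (hnp : ∀ u : Fin d → ℚ, (∃ P : Polynomial ℚ, (P : ℚ⟦X⟧) = ∑ j, C (u j) * f j) → u = 0) :
    ∃ C g : ℕ, 1 ≤ C ∧ (∀ j, Gr C (f j)) ∧ ∀ (U : ℝ) (u : Fin d → ℤ), 0 ≤ U → u ≠ 0 →
      (∀ j, |(u j : ℝ)| ≤ U) →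
      GV (fun k => ∑ j, (u j : ℚ) * coeff k (f j)) C g (d * U) := by
  classical
  obtain ⟨g, hg⟩ := gap_tuple f hf hnp
  obtain ⟨C, hC, h⟩ := growth_tuple f hf
  refine ⟨C, g, hC, h, fun U u hU hu0 hu => ⟨?_, ?_, ?_⟩⟩
  · intro k
    push_cast
    refine (abs_sum_le_sum_abs _ _).trans ?_
    calc ∑ j, |(u j : ℝ) * ((coeff k (f j) : ℚ) : ℝ)| ≤ ∑ _j : Fin d, U * (C : ℝ) ^ (k + 1) := by
          refine sum_le_sum fun j _ => ?_
          rw [abs_mul]
          have h1 : |((coeff k (f j) : ℚ) : ℝ)| ≤ (C : ℝ) ^ (k + 1) := by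
            have := (h j k).1
            exact_mod_cast this
          exact mul_le_mul (hu j) h1 (abs_nonneg _) hU
      _ = _ := by
          rw [sum_const, card_univ, Fintype.card_fin, nsmul_eq_mul]
          ring
  · intro k
    refine ⟨C ^ (k + 1), Nat.one_le_pow _ _ hC, le_rfl, fun i hi => ?_⟩
    have h1 : ∀ j, ∃ z : ℤ, ((C : ℝ) ^ (k + 1)) * ((coeff i (f j) : ℚ) : ℝ) = z := by
      intro j
      obtain ⟨z, hz⟩ := (h j i).2
      refine ⟨C ^ (k - i) * z, ?_⟩
      have h1 : ((C : ℚ) ^ (k + 1)) * coeff i (f j) = (C : ℚ) ^ (k - i) * z := by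
        rw [← hz, ← mul_assoc, ← pow_add]
        congr 2
        omega
      have h2 := congrArg (fun x : ℚ => (x : ℝ)) h1
      push_cast at h2 ⊢
      exact h2
    choose z hz using h1
    refine ⟨∑ j, u j * z j, ?_⟩
    push_cast
    rw [mul_sum]
    refine sum_congr rfl fun j _ => ?_
    rw [← hz j]
    ring
  · intro k
    have hu' : (fun j => (u j : ℚ)) ≠ 0 := by
      intro h0
      apply hu0
      funext j
      have := congrFun h0 j
      simp only [Pi.zero_apply] at this ⊢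
      exact_mod_cast this
    exact hg _ hu' k

end Pool.Agent.H609.JT
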