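import Pool.Agent.H609.JT.Ind

/-!
# The main theorem on tuples of values
-/

set_option autoImplicit false

namespace Pool.Agent.H609.JT

open Finset PowerSeries Real
open Pool.Agent.H609.GF (Sm ev int_rel)

variable {d : ℕ}

open scoped Classical in
theorem values (f : Fin d → ℚ⟦X⟧) (hf : ∀ j, IsAlgebraic (Polynomial ℚ) (f j))
    (hind : ∀ (P₀ : Polynomial ℚ) (P : Fin d → Polynomial ℚ),
      (P₀ : ℚ⟦X⟧) + ∑ j, (P j : ℚ⟦X⟧) * f j = 0 → P = 0) :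
    ∃ A : ℕ, ∃ c : ℝ, 0 < c ∧ ∀ b : ℕ, 2 ≤ b → ∀ w : ℕ, ∀ ε : ℝ, 0 < ε →
      ∃ κ : ℝ, 0 < κ ∧ ∃ n₀ : ℕ, ∀ n : ℕ, n₀ ≤ n → (∀ j, Sm (((b : ℝ) ^ n)⁻¹) (f j)) ∧
        (∀ j, ∃ R : Polynomial ℤ, R ≠ 0 ∧ R.natDegree ≤ A ∧
          (∀ k, |R.coeff k| ≤ (b : ℤ) ^ (A * n)) ∧
          Polynomial.aeval (ev (((b : ℝ) ^ n)⁻¹) (f j)) R = 0) ∧
        LinearIndependent ℚ
          (Fin.cons 1 (fun j => ev (((b : ℝ) ^ n)⁻¹) (f j)) : Fin (d + 1) → ℝ) ∧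
        ∀ D M : ℕ, (D : ℝ) ≤ c * (n : ℝ) ^ 2 → b ^ (A * n) ≤ M → ∀ y : Fin d → ℝ,
        ((((range M).filter (fun m : ℕ =>
          ¬ JN b w D ε (ε * n) (fun l => y l + m * ev (((b : ℝ) ^ n)⁻¹) (f l)))).card : ℕ) : ℝ) ≤
          M * exp (-(κ * n)) := by
  classical
  have hnp : ∀ u : Fin d → ℚ, (∃ P : Polynomial ℚ, (P : ℚ⟦X⟧) = ∑ j, C (u j) * f j) → u = 0 := by
    rintro u ⟨P, hP⟩
    have h1 := hind (-P) (fun j => Polynomial.C (u j)) (by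
      rw [Polynomial.coe_neg, hP]
      simp only [Polynomial.coe_C]
      ring)
    funext j
    have h2 := congrFun h1 j
    simpa using h2
  obtain ⟨A1, c, hc, hmain⟩ := main_tuple f hf hnp
  -- the degrees and heights
  have hrel : ∀ j, ∃ A : ℕ, ∀ b : ℕ, 2 ≤ b → ∃ n₀ : ℕ, ∀ n : ℕ, n₀ ≤ n →
      Sm (((b : ℝ) ^ n)⁻¹) (f j) →
      ∃ R : Polynomial ℤ, R ≠ 0 ∧ R.natDegree ≤ A ∧ (∀ k, |R.coeff k| ≤ (b : ℤ) ^ (A * n)) ∧
        Polynomial.aeval (ev (((b : ℝ) ^ n)⁻¹) (f j)) R = 0 := fun j => int_rel (hf j)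
  choose A2 hA2 using hrel
  set A : ℕ := max A1 (univ.sup A2) with hA
  have hA1 : A1 ≤ A := le_max_left _ _
  have hA2' : ∀ j, A2 j ≤ A := fun j =>
    (Finset.le_sup (f := A2) (mem_univ j)).trans (le_max_right _ _)
  refine ⟨A, c, hc, fun b hb w ε hε => ?_⟩
  obtain ⟨κ, hκ, n1, hn1⟩ := hmain b hb w ε hε
  have hb' : ∀ j, ∃ n₀ : ℕ, ∀ n : ℕ, n₀ ≤ n → Sm (((b : ℝ) ^ n)⁻¹) (f j) →
      ∃ R : Polynomial ℤ, R ≠ 0 ∧ R.natDegree ≤ A2 j ∧ (∀ k, |R.coeff k| ≤ (b : ℤ) ^ (A2 j * n)) ∧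
        Polynomial.aeval (ev (((b : ℝ) ^ n)⁻¹) (f j)) R = 0 := fun j => hA2 j b hb
  choose n2 hn2 using hb'
  -- the independence
  let f' : Fin (d + 1) → ℚ⟦X⟧ := Fin.cons 1 f
  have hf' : ∀ j, IsAlgebraic (Polynomial ℚ) (f' j) := by
    intro j
    refine Fin.cases ?_ (fun i => ?_) j
    · exact isAlgebraic_one
    · exact hf i
  obtain ⟨n3, hn3⟩ := indep f' hf' (by
    intro P hP
    rw [Fin.sum_univ_succ] at hP
    simp only [f', Fin.cons_zero, Fin.cons_succ, mul_one] at hP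
    have h1 := hind (P 0) (fun j => P j.succ) hP
    have h2 : ∀ j : Fin d, P j.succ = 0 := fun j => congrFun h1 j
    have h3 : P 0 = 0 := by
      simp only [h2, Polynomial.coe_zero, zero_mul, sum_const_zero, add_zero] at hP
      exact Polynomial.coe_injective ℚ (by rw [hP, Polynomial.coe_zero])
    funext j
    refine Fin.cases ?_ (fun i => ?_) j
    · exact h3
    · exact h2 i) b hb
  refine ⟨κ, hκ, max (max n1 n3) (univ.sup n2), fun n hn => ?_⟩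
  have hnn1 : n1 ≤ n := le_trans (le_trans (le_max_left _ _) (le_max_left _ _)) hn
  have hnn3 : n3 ≤ n := le_trans (le_trans (le_max_right _ _) (le_max_left _ _)) hn
  have hnn2 : ∀ j, n2 j ≤ n := fun j =>
    le_trans (le_trans (Finset.le_sup (f := n2) (mem_univ j)) (le_max_right _ _)) hn
  obtain ⟨hsm, hcard⟩ := hn1 n hnn1
  have hb1 : 1 ≤ b := by omega
  refine ⟨hsm, fun j => ?_, ?_, fun D M hD hM y => hcard D M hD (le_trans
    (Nat.pow_le_pow_right hb1 (Nat.mul_le_mul_right _ hA1)) hM) y⟩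
  · obtain ⟨R, hR0, hRd, hRc, hRe⟩ := hn2 j n (hnn2 j) (hsm j)
    refine ⟨R, hR0, hRd.trans (hA2' j), fun k => (hRc k).trans ?_, hRe⟩
    have h1 : (1 : ℤ) ≤ b := by exact_mod_cast hb1
    exact pow_le_pow_right₀ h1 (Nat.mul_le_mul_right _ (hA2' j))
  · have h1 : ∀ j, Sm (((b : ℝ) ^ n)⁻¹) (f' j) := by
      intro j
      refine Fin.cases ?_ (fun i => ?_) j
      · have := Sm.const (((b : ℝ) ^ n)⁻¹) 1
        rwa [map_one] at this
      · exact hsm i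
    have h2 := hn3 n hnn3 h1
    have h3 : (fun j => ev (((b : ℝ) ^ n)⁻¹) (f' j)) =
        (Fin.cons 1 (fun j => ev (((b : ℝ) ^ n)⁻¹) (f j)) : Fin (d + 1) → ℝ) := by
      funext j
      refine Fin.cases ?_ (fun i => ?_) j
      · have := Pool.Agent.H609.GF.ev_const (((b : ℝ) ^ n)⁻¹) 1
        rw [map_one, Rat.cast_one] at this
        exact this
      · rfl
    rw [h3] at h2
    exact h2

end Pool.Agent.H609.JT
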