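import Pool.Agent.H609.GF.Win

/-!
# One window of digits of a tuple: points which are spread in the dual sense, and rare matrices
-/

set_option autoImplicit false

namespace Pool.Agent.H609.JT

open Finset Real
open Pool.Agent.H469R2.NK (e norm_e e_add conj_e e_zero)
open Pool.Agent.Q263.JM (occw bad_words floor_eq_of_digits)
open Pool.Agent.H609.GF (kernel_large)

lemma e_sum {ι : Type*} (s : Finset ι) (x : ι → ℝ) : e (∑ j ∈ s, x j) = ∏ j ∈ s, e (x j) := by
  classical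
  induction s using Finset.induction_on with
  | empty => rw [sum_empty, prod_empty, e_zero]
  | insert a s ha ih => rw [sum_insert ha, prod_insert ha, e_add, ih]

/-- the mean of the square of a trigonometric polynomial -/
lemma mean {ι : Type*} [DecidableEq ι] (I : Finset ι) (M : ℕ) (a c : ι → ℝ) (ρ : ℝ) (hρ : 0 < ρ)
    (h : ∀ t ∈ I, ∀ t' ∈ I, t ≠ t' → ∀ p : ℤ, ρ ≤ |c t - c t' - p|) :
    ∑ m ∈ range M, ‖∑ t ∈ I, e (a t + m * c t)‖ ^ 2 ≤
      (I.card : ℝ) * M + (I.card : ℝ) ^ 2 * (2 / ρ) := by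
  have key : ∀ j ∈ I, ∀ j' ∈ I,
      ‖∑ m ∈ range M, e (a j + m * c j) * (starRingEnd ℂ) (e (a j' + m * c j'))‖ ≤
        (if j = j' then (M : ℝ) else 0) + 2 / ρ := by
    intro j hj j' hj'
    have hρ2 : (0 : ℝ) ≤ 2 / ρ := by positivity
    have e1 : ∀ m : ℕ, e (a j + m * c j) * (starRingEnd ℂ) (e (a j' + m * c j')) =
        e ((a j - a j') + m * (c j - c j')) := by
      intro m
      rw [conj_e, ← e_add]
      congr 1
      ring
    simp only [e1]
    split_ifs with hjj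
    · have : ‖∑ m ∈ range M, e ((a j - a j') + m * (c j - c j'))‖ ≤ M := by
        refine (norm_sum_le _ _).trans ?_
        simp only [norm_e]
        rw [sum_const, card_range, nsmul_eq_mul, mul_one]
      linarith
    · rw [zero_add]
      exact Pool.Agent.Y961.JR.geom_bound _ _ _ hρ (fun m => h j hj j' hj' hjj m) M
  have e0 : ((∑ m ∈ range M, ‖∑ t ∈ I, e (a t + m * c t)‖ ^ 2 : ℝ) : ℂ) =
      ∑ j ∈ I, ∑ j' ∈ I,
        ∑ m ∈ range M, e (a j + m * c j) * (starRingEnd ℂ) (e (a j' + m * c j')) := by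
    push_cast
    rw [Finset.sum_congr rfl fun j _ => Finset.sum_comm, Finset.sum_comm]
    refine sum_congr rfl fun m _ => ?_
    rw [← Complex.mul_conj', map_sum, sum_mul_sum]
  have h1 : ∑ m ∈ range M, ‖∑ t ∈ I, e (a t + m * c t)‖ ^ 2 =
      ‖((∑ m ∈ range M, ‖∑ t ∈ I, e (a t + m * c t)‖ ^ 2 : ℝ) : ℂ)‖ := by
    rw [Complex.norm_real, Real.norm_of_nonneg (sum_nonneg fun _ _ => by positivity)]
  rw [h1, e0]
  refine (norm_sum_le _ _).trans ?_
  calc ∑ j ∈ I, ‖∑ j' ∈ I,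
        ∑ m ∈ range M, e (a j + m * c j) * (starRingEnd ℂ) (e (a j' + m * c j'))‖
      ≤ ∑ j ∈ I, ∑ j' ∈ I, ((if j = j' then (M : ℝ) else 0) + 2 / ρ) := by
        refine sum_le_sum fun j hj => (norm_sum_le _ _).trans (sum_le_sum fun j' hj' => ?_)
        exact key j hj j' hj'
    _ = (I.card : ℝ) * M + (I.card : ℝ) ^ 2 * (2 / ρ) := by
        have e3 : ∀ j ∈ I, ∑ j' ∈ I, ((if j = j' then (M : ℝ) else 0) + 2 / ρ) =
            M + I.card * (2 / ρ) := by
          intro j hj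
          rw [sum_add_distrib, sum_ite_eq, if_pos hj, sum_const, nsmul_eq_mul]
        rw [sum_congr rfl e3, sum_const, nsmul_eq_mul]
        ring

variable {d : ℕ}

/-- the mean of the product of the kernels -/
lemma kernel_mean (U M : ℕ) (y β : Fin d → ℝ) (ρ : ℝ) (hρ : 0 < ρ)
    (h : ∀ u : Fin d → ℤ, u ≠ 0 → (∀ j, |u j| < U) → ∀ p : ℤ, ρ ≤ |∑ j, (u j : ℝ) * β j - p|) :
    ∑ m ∈ range M, ∏ l, ‖∑ j ∈ range U, e (j * (y l + m * β l))‖ ^ 2 ≤
      (U : ℝ) ^ d * M + ((U : ℝ) ^ d) ^ 2 * (2 / ρ) := by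
  classical
  have hexp : ∀ m : ℕ, ∏ l, ‖∑ j ∈ range U, e (j * (y l + m * β l))‖ ^ 2 =
      ‖∑ t ∈ Fintype.piFinset (fun _ : Fin d => range U),
        e ((∑ l, (t l : ℝ) * y l) + m * ∑ l, (t l : ℝ) * β l)‖ ^ 2 := by
    intro m
    rw [Finset.prod_pow, ← norm_prod, Finset.prod_univ_sum]
    congr 2
    refine sum_congr rfl fun t _ => ?_
    rw [← e_sum]
    congr 1
    rw [mul_sum, ← sum_add_distrib]
    refine sum_congr rfl fun l _ => ?_
    ring
  simp only [hexp]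
  have h1 := mean (Fintype.piFinset (fun _ : Fin d => range U)) M
    (fun t => ∑ l, (t l : ℝ) * y l) (fun t => ∑ l, (t l : ℝ) * β l) ρ hρ (by
      intro t ht t' ht' hne p
      rw [Fintype.mem_piFinset] at ht ht'
      have h2 := h (fun l => (t l : ℤ) - t' l) (by
        intro h0
        apply hne
        funext l
        have := congrFun h0 l
        simp only [Pi.zero_apply] at this
        omega) (by
        intro l
        have h3 := mem_range.1 (ht l)
        have h4 := mem_range.1 (ht' l)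
        rw [abs_lt]
        constructor <;> omega) p
      refine h2.trans (le_of_eq ?_)
      congr 2
      rw [← sum_sub_distrib]
      refine sum_congr rfl fun l _ => ?_
      push_cast
      ring)
  rw [Fintype.card_piFinset_const, card_range] at h1
  push_cast at h1
  exact h1

/-- few points in a short cube -/
theorem arc (U M : ℕ) (hU : 1 ≤ U) (y β c : Fin d → ℝ) (ρ : ℝ) (hρ : 0 < ρ)
    (h : ∀ u : Fin d → ℤ, u ≠ 0 → (∀ j, |u j| < U) → ∀ p : ℤ, ρ ≤ |∑ j, (u j : ℝ) * β j - p|)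
    (T : Finset ℕ) (hT : T ⊆ range M)
    (hTc : ∀ m ∈ T, ∀ l, ∃ p : ℤ, |y l + m * β l - c l - p| ≤ 1 / (8 * U)) :
    (T.card : ℝ) ≤ 2 ^ d * M / (U : ℝ) ^ d + 2 ^ (d + 1) / ρ := by
  have hU0 : (0 : ℝ) < U := by exact_mod_cast hU
  have h1 := kernel_mean U M (fun l => y l - c l) β ρ hρ h
  have h2 : (T.card : ℝ) * ((U : ℝ) ^ 2 / 2) ^ d ≤
      ∑ m ∈ range M, ∏ l, ‖∑ j ∈ range U, e (j * (y l - c l + m * β l))‖ ^ 2 := by
    calc (T.card : ℝ) * ((U : ℝ) ^ 2 / 2) ^ d = ∑ _m ∈ T, ((U : ℝ) ^ 2 / 2) ^ d := by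
          rw [sum_const, nsmul_eq_mul]
      _ ≤ ∑ m ∈ T, ∏ l, ‖∑ j ∈ range U, e (j * (y l - c l + m * β l))‖ ^ 2 := by
          refine sum_le_sum fun m hm => ?_
          calc ((U : ℝ) ^ 2 / 2) ^ d = ∏ _l : Fin d, ((U : ℝ) ^ 2 / 2) := by
                rw [Finset.prod_const, Finset.card_univ, Fintype.card_fin]
            _ ≤ _ := by
                refine Finset.prod_le_prod (fun _ _ => by positivity) fun l _ => ?_
                obtain ⟨p, hp⟩ := hTc m hm l
                refine kernel_large U hU _ p ?_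
                rwa [show y l - c l + m * β l - p = y l + m * β l - c l - p by ring]
      _ ≤ _ := sum_le_sum_of_subset_of_nonneg hT fun _ _ _ =>
          Finset.prod_nonneg fun _ _ => by positivity
  have h3 := h2.trans h1
  have hUd : 0 < (U : ℝ) ^ d := by positivity
  have h4 : (T.card : ℝ) * ((U : ℝ) ^ 2 / 2) ^ d ≤
      (2 ^ d * M / (U : ℝ) ^ d + 2 ^ (d + 1) / ρ) * ((U : ℝ) ^ 2 / 2) ^ d := by
    refine h3.trans (le_of_eq ?_)
    have e1 : ((U : ℝ) ^ 2 / 2) ^ d = (U : ℝ) ^ d * (U : ℝ) ^ d / 2 ^ d := by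
      rw [div_pow, ← pow_mul, ← pow_add]
      congr 2
      ring
    rw [e1, pow_succ (2 : ℝ) d]
    field_simp
  exact le_of_mul_le_mul_right h4 (by positivity)

/-- few points with given beginnings -/
theorem cell (D M : ℕ) (hD : 4 ≤ D) (y β : Fin d → ℝ) (ρ : ℝ) (hρ : 0 < ρ)
    (h : ∀ u : Fin d → ℤ, u ≠ 0 → (∀ j, |u j| < D) → ∀ p : ℤ, ρ ≤ |∑ j, (u j : ℝ) * β j - p|)
    (W : Fin d → ℤ) :
    (((range M).filter (fun m : ℕ => ∀ l, ⌊(D : ℝ) * Int.fract (y l + m * β l)⌋ = W l)).card : ℝ) ≤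
      16 ^ d * M / (D : ℝ) ^ d + 2 ^ (d + 1) / ρ := by
  have hD0 : (0 : ℝ) < D := by exact_mod_cast (by omega : 0 < D)
  set U : ℕ := D / 4 with hU
  have hU1 : 1 ≤ U := by omega
  have hU0 : (0 : ℝ) < U := by exact_mod_cast hU1
  have hUD : 4 * U ≤ D := by omega
  have hDU : D ≤ 8 * U := by omega
  have hUD' : (4 : ℝ) * U ≤ D := by exact_mod_cast hUD
  have hDU' : (D : ℝ) ≤ 8 * U := by exact_mod_cast hDU
  refine (arc U M hU1 y β (fun l => (W l + 1 / 2) / D) ρ hρ (fun u hu hu' => h u hu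
    (fun j => (hu' j).trans_le (by exact_mod_cast (by omega : U ≤ D)))) _
    (filter_subset _ _) ?_).trans ?_
  · intro m hm l
    rw [mem_filter] at hm
    refine ⟨⌊y l + m * β l⌋, ?_⟩
    have h1 := Int.floor_le ((D : ℝ) * Int.fract (y l + m * β l))
    have h2 := Int.lt_floor_add_one ((D : ℝ) * Int.fract (y l + m * β l))
    rw [hm.2 l] at h1 h2
    have e1 : y l + m * β l - (W l + 1 / 2) / D - ⌊y l + m * β l⌋ =
        (D * Int.fract (y l + m * β l) - (W l + 1 / 2)) / D := by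
      rw [← Int.self_sub_floor]
      field_simp
      ring
    rw [e1, abs_div, abs_of_pos hD0, div_le_div_iff₀ hD0 (by positivity)]
    have h3 : |(D : ℝ) * Int.fract (y l + m * β l) - (W l + 1 / 2)| ≤ 1 / 2 := by
      rw [abs_le]
      constructor <;> linarith
    nlinarith [abs_nonneg ((D : ℝ) * Int.fract (y l + m * β l) - (W l + 1 / 2))]
  · have h1 : 2 ^ d * (M : ℝ) / (U : ℝ) ^ d ≤ 16 ^ d * M / (D : ℝ) ^ d := by
      rw [div_le_div_iff₀ (by positivity) (by positivity)]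
      have h2 : (D : ℝ) ^ d ≤ 8 ^ d * (U : ℝ) ^ d := by
        rw [← mul_pow]
        exact pow_le_pow_left₀ hD0.le hDU' d
      have h3 : (16 : ℝ) ^ d = 2 ^ d * 8 ^ d := by
        rw [← mul_pow]
        norm_num
      rw [h3]
      calc 2 ^ d * (M : ℝ) * (D : ℝ) ^ d ≤ 2 ^ d * (M : ℝ) * (8 ^ d * (U : ℝ) ^ d) :=
            mul_le_mul_of_nonneg_left h2 (by positivity)
        _ = _ := by ring
    linarith

/-- **One window.** -/
theorem window (B L M : ℕ) (hB : 1 ≤ B) (Y : ℕ → Fin d → ℝ) (Q : ℝ) (hQ0 : 0 ≤ Q)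
    (hQ : ∀ W : Fin d → ℤ, (((range M).filter
      (fun m => ∀ l, ⌊(B : ℝ) ^ L * Int.fract (Y m l)⌋ = W l)).card : ℝ) ≤ Q)
    (a : Fin d → ℕ) (ha : ∀ l, a l < B) (η : ℝ) (hη : 0 < η) (hη1 : η ≤ 1) :
    (((range M).filter (fun m => η * L < |((((range L).filter (fun i => ∀ l,
      ⌊(B : ℝ) * Int.fract ((B : ℝ) ^ i * Y m l)⌋₊ = a l)).card : ℕ) : ℝ) -
        L / (B : ℝ) ^ d|)).card : ℝ) ≤
      2 * Real.exp (-(η ^ 2 / 4) * L) * ((B : ℝ) ^ d) ^ L * Q := by
  classical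
  have hB0 : (0 : ℝ) < B := by exact_mod_cast hB
  have hlt : ∀ z : ℝ, ⌊(B : ℝ) * Int.fract z⌋₊ < B := by
    intro z
    rw [Nat.floor_lt (mul_nonneg hB0.le (Int.fract_nonneg _))]
    have := Int.fract_lt_one z
    nlinarith
  let V : ℕ → (Fin L → (Fin d → Fin B)) := fun m i l =>
    ⟨⌊(B : ℝ) * Int.fract ((B : ℝ) ^ (i : ℕ) * Y m l)⌋₊, hlt _⟩
  let a' : Fin d → Fin B := fun l => ⟨a l, ha l⟩
  have hcount : ∀ m, ((range L).filter (fun i => ∀ l,
      ⌊(B : ℝ) * Int.fract ((B : ℝ) ^ i * Y m l)⌋₊ = a l)).card = occw a' (V m) := by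
    intro m
    unfold occw
    symm
    refine Finset.card_bij (fun i _ => (i : ℕ)) ?_ ?_ ?_
    · intro i hi
      rw [Finset.mem_filter] at hi
      rw [Finset.mem_filter, Finset.mem_range]
      refine ⟨i.2, fun l => ?_⟩
      have := congrFun hi.2 l
      exact congrArg Fin.val this
    · intro i _ j _ h
      exact Fin.ext h
    · intro i hi
      rw [Finset.mem_filter, Finset.mem_range] at hi
      refine ⟨⟨i, hi.1⟩, ?_, rfl⟩
      rw [Finset.mem_filter]
      refine ⟨Finset.mem_univ _, ?_⟩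
      funext l
      exact Fin.ext (hi.2 l)
  have hcardα : (Fintype.card (Fin d → Fin B) : ℝ) = (B : ℝ) ^ d := by
    rw [Fintype.card_fun, Fintype.card_fin, Fintype.card_fin]
    push_cast
    rfl
  set Bad : Finset (Fin L → (Fin d → Fin B)) := univ.filter
    (fun W => η * L < |(occw a' W : ℝ) - L / Fintype.card (Fin d → Fin B)|) with hBad
  have hbad := bad_words a' η hη hη1 L
  rw [← hBad, hcardα] at hbad
  set S := (range M).filter (fun m => η * L < |((((range L).filter (fun i => ∀ l,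
      ⌊(B : ℝ) * Int.fract ((B : ℝ) ^ i * Y m l)⌋₊ = a l)).card : ℕ) : ℝ) -
        L / (B : ℝ) ^ d|) with hS
  have himg : S.image V ⊆ Bad := by
    intro W hW
    rw [Finset.mem_image] at hW
    obtain ⟨m, hm, rfl⟩ := hW
    rw [hS, Finset.mem_filter, hcount] at hm
    rw [hBad, Finset.mem_filter, hcardα]
    exact ⟨Finset.mem_univ _, hm.2⟩
  have hfib : ∀ W ∈ S.image V, ((S.filter (fun m => V m = W)).card : ℝ) ≤ Q := by
    intro W hW
    rw [Finset.mem_image] at hW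
    obtain ⟨m0, hm0, rfl⟩ := hW
    refine le_trans (Nat.cast_le.2 (Finset.card_le_card ?_))
      (hQ fun l => ⌊(B : ℝ) ^ L * Int.fract (Y m0 l)⌋)
    intro m hm
    rw [Finset.mem_filter] at hm ⊢
    refine ⟨(Finset.mem_filter.1 hm.1).1, fun l => ?_⟩
    apply floor_eq_of_digits
    intro i hi
    exact congrArg Fin.val (congrFun (congrFun hm.2 ⟨i, hi⟩) l)
  have hsum : (S.card : ℝ) ≤ (S.image V).card * Q := by
    rw [Finset.card_eq_sum_card_image V S]
    push_cast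
    calc ∑ W ∈ S.image V, (((S.filter (fun m => V m = W)).card : ℕ) : ℝ)
        ≤ ∑ _W ∈ S.image V, Q := Finset.sum_le_sum hfib
      _ = _ := by rw [Finset.sum_const, nsmul_eq_mul]
  calc (S.card : ℝ) ≤ (S.image V).card * Q := hsum
    _ ≤ (Bad.card : ℝ) * Q := by
        apply mul_le_mul_of_nonneg_right _ hQ0
        exact_mod_cast Finset.card_le_card himg
    _ ≤ (2 * Real.exp (-(η ^ 2 / 4) * L) * ((B : ℝ) ^ d) ^ L) * Q :=
        mul_le_mul_of_nonneg_right hbad hQ0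

end Pool.Agent.H609.JT
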